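import Pool.Agent.H907F.LA

/-! Module theory: functionals on a torsionless module over a two-dimensional factorial local ring. -/

set_option linter.unusedSectionVars false

namespace H907F

open Module

section
variable {A : Type*} [CommRing A] {V : Type*} [AddCommGroup V] [Module A V]

/-- restriction of functionals to a submodule -/
def resL (N : Submodule A V) : (V →ₗ[A] A) →ₗ[A] (N →ₗ[A] A) := LinearMap.lcomp A A N.subtype

@[simp] lemma resL_apply (N : Submodule A V) (κ : V →ₗ[A] A) (u : N) : resL N κ u = κ u := rfl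

/-- functionals on `N` which extend to `V` -/
def IN (N : Submodule A V) : Submodule A (N →ₗ[A] A) := LinearMap.range (resL N)

variable [IsDomain A]

lemma a1 (hT0 : ∀ v : V, v ≠ 0 → ∃ κ : V →ₗ[A] A, κ v ≠ 0) (N : Submodule A V)
    {ι : Type*} [Fintype ι] (b : Basis ι A N) :
    ∃ a : A, a ≠ 0 ∧ ∀ κ : N →ₗ[A] A, a • κ ∈ IN N := by
  classical
  let e : (ι → A) ≃ₗ[A] (N →ₗ[A] A) := b.constr A
  obtain ⟨a, ha, h⟩ := la ((IN N).comap e.toLinearMap) (by
    intro z hz
    let v : N := ∑ i, z i • b i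
    have hv : v ≠ 0 := by
      intro h0
      apply hz
      ext i
      have := Fintype.linearIndependent_iff.1 b.linearIndependent z h0 i
      simpa using this
    obtain ⟨κ, hκ⟩ := hT0 (v : V) (by simpa using hv)
    refine ⟨fun i => κ (b i), ?_, ?_⟩
    · refine ⟨κ, b.ext fun i => ?_⟩
      simp [e]
    · intro h0
      apply hκ
      have : (κ (v : V)) = ∑ i, κ (b i) * z i := by
        simp only [v, Submodule.coe_sum, map_sum, Submodule.coe_smul, map_smul, smul_eq_mul]
        exact Finset.sum_congr rfl fun i _ => mul_comm _ _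
      rw [this, h0])
  refine ⟨a, ha, fun κ => ?_⟩
  have := h (e.symm κ)
  rw [Submodule.mem_comap] at this
  simpa using this

lemma a2 {f : A} (hf : Prime f)
    (hT1 : ∀ v : V, (∀ u : V, v ≠ f • u) → ∃ κ : V →ₗ[A] A, ¬ f ∣ κ v)
    (N : Submodule A V) (hN : ∀ u : V, f • u ∈ N → u ∈ N)
    {ι : Type*} [Fintype ι] (b : Basis ι A N) :
    ∃ c : A, ¬ f ∣ c ∧ ∀ κ : N →ₗ[A] A, ∃ κ1 ∈ IN N, ∃ κ2 : N →ₗ[A] A, c • κ = κ1 + f • κ2 := by
  classical
  have hP : (Ideal.span {f}).IsPrime := (Ideal.span_singleton_prime hf.ne_zero).2 hf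
  let mk := Ideal.Quotient.mk (Ideal.span {f})
  have hmk : ∀ t : A, mk t = 0 ↔ f ∣ t := fun t => by
    rw [Ideal.Quotient.eq_zero_iff_mem, Ideal.mem_span_singleton]
  let I : Submodule (A ⧸ Ideal.span {f}) (ι → A ⧸ Ideal.span {f}) :=
    { carrier := {w | ∃ κ : V →ₗ[A] A, ∀ i, w i = mk (κ (b i))}
      zero_mem' := ⟨0, fun i => by simp⟩
      add_mem' := by
        rintro w1 w2 ⟨κ1, h1⟩ ⟨κ2, h2⟩
        exact ⟨κ1 + κ2, fun i => by simp [h1, h2]⟩
      smul_mem' := by
        rintro c w ⟨κ, h1⟩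
        obtain ⟨c, rfl⟩ := Ideal.Quotient.mk_surjective c
        exact ⟨c • κ, fun i => by simp [h1, mk]⟩ }
  obtain ⟨c', hc', h⟩ := la I (by
    intro z hz
    choose z' hz' using fun i => Ideal.Quotient.mk_surjective (z i)
    let v : N := ∑ i, z' i • b i
    obtain ⟨κ, hκ⟩ := hT1 (v : V) (by
      intro u hu
      have huN : u ∈ N := hN u (hu ▸ v.2)
      apply hz
      ext i
      have hv : v = f • (⟨u, huN⟩ : N) := Subtype.ext hu
      have h1 : b.repr v i = z' i := by
        simp only [v]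
        rw [b.repr_sum_self]
      have h2 : b.repr v i = f * b.repr ⟨u, huN⟩ i := by
        rw [hv, map_smul, Finsupp.smul_apply, smul_eq_mul]
      rw [← hz' i, Pi.zero_apply]
      exact (hmk _).2 ⟨_, h1.symm.trans h2⟩)
    refine ⟨fun i => mk (κ (b i)), ⟨κ, fun i => rfl⟩, ?_⟩
    intro h0
    apply hκ
    rw [← hmk, ← h0]
    simp only [v, Submodule.coe_sum, map_sum, Submodule.coe_smul, map_smul, smul_eq_mul, map_mul]
    exact Finset.sum_congr rfl fun i _ => by
      rw [mul_comm, ← hz' i])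
  obtain ⟨c, rfl⟩ := Ideal.Quotient.mk_surjective c'
  refine ⟨c, fun h0 => hc' ((hmk c).2 h0), fun κ => ?_⟩
  obtain ⟨κ1, h1⟩ := h (fun i => mk (κ (b i)))
  have h2 : ∀ i, ∃ t, c * κ (b i) - κ1 (b i) = f * t := by
    intro i
    have := h1 i
    rw [Pi.smul_apply, smul_eq_mul] at this
    change mk c * mk (κ (b i)) = _ at this
    rw [← map_mul, ← sub_eq_zero, ← map_sub] at this
    exact (hmk _).1 this
  choose t ht using h2
  refine ⟨resL N κ1, ⟨κ1, rfl⟩, b.constr A t, b.ext fun i => ?_⟩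
  simp only [LinearMap.smul_apply, smul_eq_mul, LinearMap.add_apply, resL_apply,
    Basis.constr_basis]
  rw [← ht i]; ring

end

section
variable {A : Type*} [CommRing A] [IsDomain A] [UniqueFactorizationMonoid A] (m : Ideal A)
  {E : Type*} [AddCommGroup E] [Module A E]

lemma a3 (hf : ∀ f : A, Prime f → ∃ c, ¬ f ∣ c ∧ ∀ e : E, ∃ e' : E, c • e = f • e')
    (hD2 : ∀ f c : A, Prime f → ¬ f ∣ c → ∃ s : ℕ, m ^ s ≤ Ideal.span {c, f}) (a : A) :
    a ≠ 0 → ∃ s : ℕ, (m ^ s) • (⊤ : Submodule A E) ≤ Ideal.span {a} • (⊤ : Submodule A E) := by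
  refine UniqueFactorizationMonoid.induction_on_prime a (fun h => absurd rfl h) ?_ ?_
  · intro x hx _
    refine ⟨0, ?_⟩
    rw [Ideal.span_singleton_eq_top.2 hx]
    simp
  · intro a f ha hfp ih _
    obtain ⟨s1, h1⟩ := ih ha
    obtain ⟨c, hc, hcE⟩ := hf f hfp
    obtain ⟨s2, h2⟩ := hD2 f c hfp hc
    have h3 : (m ^ s2) • (⊤ : Submodule A E) ≤ Ideal.span {f} • (⊤ : Submodule A E) := by
      refine (Submodule.smul_mono_left h2).trans ?_
      rw [Ideal.span_insert, Submodule.sup_smul]
      refine sup_le ?_ le_rfl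
      rw [Submodule.ideal_span_singleton_smul, Submodule.ideal_span_singleton_smul]
      rintro _ ⟨e, _, rfl⟩
      obtain ⟨e', he'⟩ := hcE e
      exact ⟨e', trivial, he'.symm⟩
    refine ⟨s1 + s2, ?_⟩
    calc (m ^ (s1 + s2)) • (⊤ : Submodule A E)
        = (m ^ s1) • ((m ^ s2) • (⊤ : Submodule A E)) := by rw [pow_add, mul_smul]
      _ ≤ (m ^ s1) • (Ideal.span {f} • (⊤ : Submodule A E)) := Submodule.smul_mono le_rfl h3
      _ = Ideal.span {f} • ((m ^ s1) • (⊤ : Submodule A E)) := by
          rw [← mul_smul, ← mul_smul, mul_comm]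
      _ ≤ Ideal.span {f} • (Ideal.span {a} • (⊤ : Submodule A E)) := Submodule.smul_mono le_rfl h1
      _ = Ideal.span {f * a} • (⊤ : Submodule A E) := by
          rw [← mul_smul, Ideal.span_singleton_mul_span_singleton]

end

section
variable {A : Type*} [CommRing A] [IsNoetherianRing A] [IsLocalRing A]
  {E : Type*} [AddCommGroup E] [Module A E] [Module.Finite A E]

lemma a5 (s : ℕ) (h : (IsLocalRing.maximalIdeal A ^ s) • (⊤ : Submodule A E) = ⊥) :
    IsArtinian A E := by
  rcases Nat.eq_zero_or_pos s with rfl | hs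
  · rw [pow_zero, Ideal.one_eq_top, Submodule.top_smul] at h
    have : Subsingleton E := (Submodule.subsingleton_iff A).1 (subsingleton_of_bot_eq_top h.symm)
    infer_instance
  set J := IsLocalRing.maximalIdeal A ^ s with hJ
  have hJne : J ≠ ⊤ := fun h0 => (IsLocalRing.maximalIdeal.isMaximal A).ne_top
    (top_le_iff.1 (h0 ▸ Ideal.pow_le_self hs.ne'))
  have : Nontrivial (A ⧸ J) := Ideal.Quotient.nontrivial_iff.2 hJne
  have : IsLocalRing (A ⧸ J) := IsLocalRing.of_surjective' (Ideal.Quotient.mk J)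
    Ideal.Quotient.mk_surjective
  have : IsArtinianRing (A ⧸ J) := by
    rw [isArtinianRing_iff_isNilpotent_maximalIdeal]
    refine ⟨s, ?_⟩
    have : IsLocalRing.maximalIdeal (A ⧸ J) =
        (IsLocalRing.maximalIdeal A).map (Ideal.Quotient.mk J) := by
      refine le_antisymm ?_ ?_
      · intro x hx
        obtain ⟨x, rfl⟩ := Ideal.Quotient.mk_surjective x
        refine Ideal.mem_map_of_mem _ ?_
        rw [IsLocalRing.mem_maximalIdeal, mem_nonunits_iff] at hx ⊢
        exact fun hu => hx (hu.map _)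
      · exact IsLocalRing.le_maximalIdeal (by
          intro h0
          have := Ideal.comap_map_of_surjective (Ideal.Quotient.mk J) Ideal.Quotient.mk_surjective
            (IsLocalRing.maximalIdeal A)
          rw [h0, Ideal.comap_top] at this
          have hle : Ideal.comap (Ideal.Quotient.mk J) ⊥ ≤ IsLocalRing.maximalIdeal A := by
            rw [← RingHom.ker_eq_comap_bot, Ideal.mk_ker]; exact Ideal.pow_le_self hs.ne'
          rw [sup_eq_left.2 hle] at this
          exact (IsLocalRing.maximalIdeal.isMaximal A).ne_top this.symm)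
    rw [this, ← Ideal.map_pow, ← hJ, Ideal.map_quotient_self, Ideal.zero_eq_bot]
  have htor : Module.IsTorsionBySet A E J := by
    intro e a
    have : (a : A) • e ∈ J • (⊤ : Submodule A E) := Submodule.smul_mem_smul a.2 trivial
    rw [h] at this
    simpa using this
  let : Module (A ⧸ J) E := htor.module
  have : IsScalarTower A (A ⧸ J) E := htor.isScalarTower
  have : Module.Finite (A ⧸ J) E := Module.Finite.of_restrictScalars_finite A (A ⧸ J) E
  have : IsArtinian (A ⧸ J) E := isArtinian_of_fg_of_artinian'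
  exact isArtinian_of_surjective_algebraMap (R := A ⧸ J) Ideal.Quotient.mk_surjective

end

end H907F
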