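import Pool.Agent.H907F.Abs

/-! Saturations, lifting of functionals on countably generated modules. -/

set_option linter.unusedSectionVars false

namespace H907F

open Module

section
variable {A : Type*} [CommRing A] [IsDomain A] {V : Type*} [AddCommGroup V] [Module A V]

/-- saturation of a submodule -/
def sat (N : Submodule A V) : Submodule A V where
  carrier := {v | ∃ a : A, a ≠ 0 ∧ a • v ∈ N}
  zero_mem' := ⟨1, one_ne_zero, by simp⟩
  add_mem' := by
    rintro u v ⟨a, ha, hu⟩ ⟨b, hb, hv⟩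
    refine ⟨a * b, mul_ne_zero ha hb, ?_⟩
    rw [smul_add]
    refine N.add_mem ?_ ?_
    · rw [mul_comm, mul_smul]; exact N.smul_mem _ hu
    · rw [mul_smul]; exact N.smul_mem _ hv
  smul_mem' := by
    rintro c v ⟨a, ha, hv⟩
    refine ⟨a, ha, ?_⟩
    rw [smul_comm]; exact N.smul_mem _ hv

lemma le_sat (N : Submodule A V) : N ≤ sat N := fun v hv => ⟨1, one_ne_zero, by simpa using hv⟩

lemma sat_mono {N M : Submodule A V} (h : N ≤ M) : sat N ≤ sat M :=
  fun _ ⟨a, ha, hv⟩ => ⟨a, ha, h hv⟩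

lemma sat_sat (N : Submodule A V) {a : A} (ha : a ≠ 0) {v : V} (h : a • v ∈ sat N) : v ∈ sat N := by
  obtain ⟨b, hb, h⟩ := h
  exact ⟨b * a, mul_ne_zero hb ha, by rw [mul_smul]; exact h⟩

lemma tf (hT0 : ∀ v : V, v ≠ 0 → ∃ κ : V →ₗ[A] A, κ v ≠ 0) {a : A} (ha : a ≠ 0) {v : V}
    (h : a • v = 0) : v = 0 := by
  by_contra hv
  obtain ⟨κ, hκ⟩ := hT0 v hv
  have : a * κ v = 0 := by rw [← smul_eq_mul, ← map_smul, h, map_zero]
  exact (mul_ne_zero ha hκ) this

lemma sat_fg [IsNoetherianRing A] (hT0 : ∀ v : V, v ≠ 0 → ∃ κ : V →ₗ[A] A, κ v ≠ 0)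
    (N : Submodule A V) (hN : N.FG) : (sat N).FG := by
  classical
  obtain ⟨r, n, hn⟩ := Submodule.fg_iff_exists_fin_generating_family.1 hN
  let w : (V →ₗ[A] A) → (Fin r → A) := fun κ i => κ (n i)
  obtain ⟨T, hT, hTs⟩ := (Submodule.fg_span_iff_fg_span_finset_subset (R := A)
    (Set.range w)).1 (IsNoetherian.noetherian _)
  choose κ hκ using fun t : T => hT t.2
  let F : V →ₗ[A] (T → A) := LinearMap.pi κ
  have hF : ∀ v ∈ sat N, F v = 0 → v = 0 := by
    rintro v ⟨a, ha, hav⟩ hFv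
    rw [← hn, Submodule.mem_span_range_iff_exists_fun] at hav
    obtain ⟨c, hc⟩ := hav
    have key : ∀ x ∈ Submodule.span A (Set.range w), ∑ i, c i * x i = 0 := by
      rw [hTs]
      intro x hx
      induction hx using Submodule.span_induction with
      | mem x hx =>
        have h1 : κ ⟨x, hx⟩ (a • v) = 0 := by
          have : F v ⟨x, hx⟩ = 0 := by rw [hFv]; rfl
          rw [map_smul]
          change κ ⟨x, hx⟩ v = 0 at this
          rw [this, smul_zero]
        rw [← hc, map_sum] at h1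
        have h2 := hκ ⟨x, hx⟩
        rw [← h1]
        refine Finset.sum_congr rfl fun i _ => ?_
        rw [map_smul, smul_eq_mul]
        congr 1
        exact (congrFun h2 i).symm
      | zero => simp
      | add x y _ _ hx hy => simp [mul_add, Finset.sum_add_distrib, hx, hy]
      | smul t x _ hx =>
        have : ∑ i, c i * (t • x) i = t * ∑ i, c i * x i := by
          rw [Finset.mul_sum]
          exact Finset.sum_congr rfl fun i _ => by simp only [Pi.smul_apply, smul_eq_mul]; ring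
        rw [this, hx, mul_zero]
    refine tf hT0 ha ?_
    by_contra hne
    obtain ⟨κ', hκ'⟩ := hT0 _ hne
    apply hκ'
    rw [← hc, map_sum, ← key (w κ') (Submodule.subset_span ⟨κ', rfl⟩)]
    exact Finset.sum_congr rfl fun i _ => by rw [map_smul, smul_eq_mul]
  rw [← Module.Finite.iff_fg]
  refine Module.Finite.of_injective (F ∘ₗ (sat N).subtype) ?_
  rw [injective_iff_map_eq_zero]
  intro v hv
  exact Subtype.ext (hF v.1 v.2 hv)

lemma exists_functional [IsLocalRing A] {M : Type*} [AddCommGroup M] [Module A M] [Module.Free A M]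
    [Module.Finite A M] (u : M) (hu : u ∉ (IsLocalRing.maximalIdeal A) • (⊤ : Submodule A M)) :
    ∃ l : M →ₗ[A] A, l u = 1 := by
  classical
  let b := Module.Free.chooseBasis A M
  by_contra hcon
  apply hu
  rw [← b.sum_repr u]
  refine Submodule.sum_mem _ fun i _ => Submodule.smul_mem_smul ?_ trivial
  rw [IsLocalRing.mem_maximalIdeal, mem_nonunits_iff]
  intro hun
  obtain ⟨t, ht⟩ := hun
  apply hcon
  refine ⟨(↑t⁻¹ : A) • b.coord i, ?_⟩
  rw [LinearMap.smul_apply, Basis.coord_apply, ← ht, smul_eq_mul, Units.inv_mul]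

/-- gluing of a compatible sequence of functionals -/
lemma glue (N : ℕ → Submodule A V) (hmono : Monotone N) (hcov : ∀ v : V, ∃ n, v ∈ N n)
    (κ : ∀ n, N n →ₗ[A] A)
    (hc : ∀ n (v : V) (hv : v ∈ N n), κ (n + 1) ⟨v, hmono (Nat.le_succ n) hv⟩ = κ n ⟨v, hv⟩) :
    ∃ K : V →ₗ[A] A, ∀ n (v : V) (hv : v ∈ N n), K v = κ n ⟨v, hv⟩ := by
  classical
  have hc' : ∀ n k (v : V) (hv : v ∈ N n),
      κ (n + k) ⟨v, hmono (Nat.le_add_right n k) hv⟩ = κ n ⟨v, hv⟩ := by
    intro n k v hv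
    induction k with
    | zero => rfl
    | succ k ih => rw [← ih]; exact hc (n + k) v (hmono (Nat.le_add_right n k) hv)
  have hc'' : ∀ n m (v : V) (hn : v ∈ N n) (hm : v ∈ N m), κ n ⟨v, hn⟩ = κ m ⟨v, hm⟩ := by
    intro n m v hn hm
    rcases le_total n m with h | h
    · obtain ⟨k, rfl⟩ := Nat.exists_eq_add_of_le h
      exact (hc' n k v hn).symm
    · obtain ⟨k, rfl⟩ := Nat.exists_eq_add_of_le h
      exact hc' m k v hm
  choose idx hidx using hcov
  refine ⟨{ toFun := fun v => κ (idx v) ⟨v, hidx v⟩, map_add' := ?_, map_smul' := ?_ }, ?_⟩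
  · intro u v
    let M := max (idx (u + v)) (max (idx u) (idx v))
    have hu : u ∈ N M := hmono (le_trans (le_max_left _ _) (le_max_right _ _)) (hidx u)
    have hv : v ∈ N M := hmono (le_trans (le_max_right _ _) (le_max_right _ _)) (hidx v)
    rw [hc'' _ M (u + v) _ (Submodule.add_mem _ hu hv), hc'' _ M u _ hu, hc'' _ M v _ hv,
      ← map_add]
    rfl
  · intro a v
    have hv : a • v ∈ N (idx v) := Submodule.smul_mem _ _ (hidx v)
    rw [RingHom.id_apply, hc'' _ (idx v) (a • v) _ hv, ← map_smul]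
    rfl
  · intro n v hv
    exact hc'' _ _ _ _ _

end

section
variable {A : Type*} [CommRing A] [IsDomain A] [IsNoetherianRing A] [IsLocalRing A]
  [UniqueFactorizationMonoid A] {V : Type*} [AddCommGroup V] [Module A V]

lemma key_artin
    (hD2 : ∀ f c : A, Prime f → ¬ f ∣ c →
      ∃ s : ℕ, (IsLocalRing.maximalIdeal A) ^ s ≤ Ideal.span {c, f})
    (hT0 : ∀ v : V, v ≠ 0 → ∃ κ : V →ₗ[A] A, κ v ≠ 0)
    (hT1 : ∀ f : A, Prime f → ∀ v : V, (∀ u : V, v ≠ f • u) → ∃ κ : V →ₗ[A] A, ¬ f ∣ κ v)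
    (N : Submodule A V) (hfree : Module.Free A N) (hfin : Module.Finite A N)
    (hsat : ∀ (a : A) (v : V), a ≠ 0 → a • v ∈ N → v ∈ N) :
    IsArtinian A ((N →ₗ[A] A) ⧸ IN N) := by
  classical
  let b := Module.Free.chooseBasis A N
  obtain ⟨a, ha, h1⟩ := a1 hT0 N b
  obtain ⟨s, hs⟩ := a3 (E := (N →ₗ[A] A) ⧸ IN N) (IsLocalRing.maximalIdeal A) (by
    intro f hf
    obtain ⟨c, hc, h⟩ := a2 hf (hT1 f hf) N (fun u => hsat f u hf.ne_zero) b
    refine ⟨c, hc, fun e => ?_⟩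
    obtain ⟨κ, rfl⟩ := Submodule.mkQ_surjective _ e
    obtain ⟨κ1, hκ1, κ2, h2⟩ := h κ
    refine ⟨(IN N).mkQ κ2, ?_⟩
    rw [← map_smul, h2, map_add, ← map_smul]
    have : (IN N).mkQ κ1 = 0 := by simpa using hκ1
    rw [this, zero_add]) hD2 a ha
  refine a5 s ?_
  rw [eq_bot_iff]
  refine hs.trans ?_
  rw [Submodule.ideal_span_singleton_smul]
  rintro _ ⟨e, _, rfl⟩
  obtain ⟨κ, rfl⟩ := Submodule.mkQ_surjective _ e
  rw [Submodule.mem_bot]
  change a • (IN N).mkQ κ = 0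
  rw [← map_smul, Submodule.mkQ_apply, Submodule.Quotient.mk_eq_zero]
  exact h1 κ

/-- Main abstract statement. -/
theorem abs_main
    (hD2 : ∀ f c : A, Prime f → ¬ f ∣ c →
      ∃ s : ℕ, (IsLocalRing.maximalIdeal A) ^ s ≤ Ideal.span {c, f})
    (hT0 : ∀ v : V, v ≠ 0 → ∃ κ : V →ₗ[A] A, κ v ≠ 0)
    (hT1 : ∀ f : A, Prime f → ∀ v : V, (∀ u : V, v ≠ f • u) → ∃ κ : V →ₗ[A] A, ¬ f ∣ κ v)
    (hfree : ∀ N : Submodule A V, N.FG → (∀ (a : A) (v : V), a ≠ 0 → a • v ∈ N → v ∈ N) →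
      Module.Free A N)
    (g : ℕ → V) (hg : Submodule.span A (Set.range g) = ⊤)
    (v : V) (hv : v ∉ (IsLocalRing.maximalIdeal A) • (⊤ : Submodule A V)) :
    ∃ κ : V →ₗ[A] A, κ v = 1 := by
  classical
  let N : ℕ → Submodule A V := fun n => sat (Submodule.span A (insert v (g '' Set.Iio n)))
  have hmono : Monotone N := fun i j hij => sat_mono (Submodule.span_mono
    (Set.insert_subset_insert (Set.image_mono (Set.Iio_subset_Iio hij))))
  have hNfg : ∀ n, (N n).FG := fun n => sat_fg hT0 _ (Submodule.fg_span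
    ((Set.finite_Iio n).image g |>.insert v))
  have hNsat : ∀ n (a : A) (u : V), a ≠ 0 → a • u ∈ N n → u ∈ N n := fun n a u ha h =>
    sat_sat _ ha h
  have hcov : ∀ u : V, ∃ n, u ∈ N n := by
    intro u
    have hu : u ∈ Submodule.span A (Set.range g) := by rw [hg]; trivial
    have hle : Submodule.span A (Set.range g) ≤ ⨆ n, N n := by
      rw [Submodule.span_le]
      rintro _ ⟨i, rfl⟩
      refine Submodule.mem_iSup_of_mem (i + 1) (le_sat _ (Submodule.subset_span ?_))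
      exact Set.mem_insert_of_mem _ ⟨i, Nat.lt_succ_self i, rfl⟩
    exact (Submodule.mem_iSup_of_directed _ hmono.directed_le).1 (hle hu)
  have hvN : ∀ n, v ∈ N n := fun n => le_sat _ (Submodule.subset_span (Set.mem_insert _ _))
  have hfr : ∀ n, Module.Free A (N n) := fun n => hfree (N n) (hNfg n) (hNsat n)
  have hfi : ∀ n, Module.Finite A (N n) := fun n => Module.Finite.iff_fg.2 (hNfg n)
  have hl : ∀ n, ∃ l : N n →ₗ[A] A, l ⟨v, hvN n⟩ = 1 := by
    intro n
    have := hfr n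
    have := hfi n
    refine exists_functional _ fun h => hv ?_
    have h2 : (N n).subtype ⟨v, hvN n⟩ ∈
        Submodule.map (N n).subtype ((IsLocalRing.maximalIdeal A) • (⊤ : Submodule A (N n))) :=
      ⟨_, h, rfl⟩
    rw [Submodule.map_smul''] at h2
    exact Submodule.smul_mono le_rfl le_top h2
  -- restriction maps
  let res : ∀ n k, (N (n + k) →ₗ[A] A) →ₗ[A] (N n →ₗ[A] A) := fun n k =>
    LinearMap.lcomp A A (Submodule.inclusion (hmono (Nat.le_add_right n k)))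
  have hIN : ∀ n k, IN (N n) ≤ LinearMap.range (res n k) := by
    rintro n k _ ⟨κ, rfl⟩
    exact ⟨resL (N (n + k)) κ, rfl⟩
  have hanti : ∀ n k l, k ≤ l → LinearMap.range (res n l) ≤ LinearMap.range (res n k) := by
    rintro n k l hkl _ ⟨κ, rfl⟩
    exact ⟨κ ∘ₗ Submodule.inclusion (hmono (Nat.add_le_add_left hkl n)), rfl⟩
  have hstab : ∀ n, ∃ k, ∀ l, k ≤ l →
      LinearMap.range (res n k) ≤ LinearMap.range (res n l) := by
    intro n
    have := hfr n
    have := hfi n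
    have hA : IsArtinian A ((N n →ₗ[A] A) ⧸ IN (N n)) :=
      key_artin hD2 hT0 hT1 (N n) (hfr n) (hfi n) (hNsat n)
    let F : ℕ →o (Submodule A ((N n →ₗ[A] A) ⧸ IN (N n)))ᵒᵈ :=
      { toFun := fun k => OrderDual.toDual (Submodule.map (IN (N n)).mkQ (LinearMap.range (res n k)))
        monotone' := fun k l hkl => Submodule.map_mono (hanti n k l hkl) }
    obtain ⟨k, hk⟩ := IsArtinian.monotone_stabilizes F
    refine ⟨k, fun l hkl => ?_⟩
    have h1 : Submodule.map (IN (N n)).mkQ (LinearMap.range (res n k)) =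
        Submodule.map (IN (N n)).mkQ (LinearMap.range (res n l)) := hk l hkl
    have h2 : ∀ j, Submodule.comap (IN (N n)).mkQ (Submodule.map (IN (N n)).mkQ
        (LinearMap.range (res n j))) = LinearMap.range (res n j) := by
      intro j
      rw [Submodule.comap_map_mkQ, sup_eq_right.2 (hIN n j)]
    rw [← h2 k, h1, h2 l]
  let P : ∀ n, (N n →ₗ[A] A) → Prop := fun n κ => ∀ k, κ ∈ LinearMap.range (res n k)
  have hstep : ∀ n (κ : N n →ₗ[A] A), P n κ → ∃ κ' : N (n + 1) →ₗ[A] A, P (n + 1) κ' ∧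
      ∀ (u : V) (hu : u ∈ N n), κ' ⟨u, hmono (Nat.le_succ n) hu⟩ = κ ⟨u, hu⟩ := by
    intro n κ hκ
    obtain ⟨k, hk⟩ := hstab (n + 1)
    obtain ⟨κ2, hκ2⟩ := hκ (1 + k)
    have hle : N (n + 1 + k) ≤ N (n + (1 + k)) := hmono (by omega)
    let κ3 : N (n + 1 + k) →ₗ[A] A := κ2 ∘ₗ Submodule.inclusion hle
    refine ⟨res (n + 1) k κ3, ?_, ?_⟩
    · intro l
      rcases le_total k l with hkl | hkl
      · exact hk l hkl ⟨κ3, rfl⟩
      · exact hanti (n + 1) l k hkl ⟨κ3, rfl⟩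
    · intro u hu
      rw [← hκ2]
      rfl
  choose! step hP hc using hstep
  obtain ⟨k0, hk0⟩ := hstab 0
  obtain ⟨l0, hl0⟩ := hl (0 + k0)
  let κ0 : N 0 →ₗ[A] A := res 0 k0 l0
  have hκ0 : P 0 κ0 := by
    intro l
    rcases le_total k0 l with hkl | hkl
    · exact hk0 l hkl ⟨l0, rfl⟩
    · exact hanti 0 l k0 hkl ⟨l0, rfl⟩
  let s : ∀ n, {κ : N n →ₗ[A] A // P n κ} := fun n =>
    Nat.rec ⟨κ0, hκ0⟩ (fun n κ => ⟨step n κ.1, hP n κ.1 κ.2⟩) n
  obtain ⟨K, hK⟩ := glue N hmono hcov (fun n => (s n).1) (fun n u hu => hc n (s n).1 (s n).2 u hu)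
  refine ⟨K, ?_⟩
  rw [hK 0 v (hvN 0)]
  exact hl0

end

end H907F
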