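import Mathlib

/-! Rings of convergent power series over a non-Archimedean field of characteristic `p`. -/

set_option linter.unusedSectionVars false

namespace H907K

open MvPowerSeries

/-- The ring `K_n(k)` of convergent power series in `n` variables over a non-Archimedean field. -/
def Conv (n : ℕ) (k : Type*) [NormedField k] [IsUltrametricDist k] :
    Subring (MvPowerSeries (Fin n) k) where
  carrier := {f | ∃ r : ℝ, 0 < r ∧ ∃ C : ℝ, ∀ m : Fin n →₀ ℕ,
    ‖MvPowerSeries.coeff m f‖ * r ^ (∑ i, m i) ≤ C}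
  zero_mem' := ⟨1, one_pos, 0, fun m => by simp⟩
  one_mem' := by
    classical
    refine ⟨1, one_pos, 1, fun m => ?_⟩
    rw [coeff_one]
    split_ifs <;> simp
  add_mem' := by
    rintro f g ⟨r, hr, C, hC⟩ ⟨s, hs, D, hD⟩
    refine ⟨min r s, lt_min hr hs, max C D, fun m => ?_⟩
    have h0 : 0 ≤ min r s := (lt_min hr hs).le
    have h1 : ‖coeff m f‖ * (min r s) ^ (∑ i, m i) ≤ C :=
      (mul_le_mul_of_nonneg_left (pow_le_pow_left₀ h0 (min_le_left _ _) _)
        (norm_nonneg _)).trans (hC m)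
    have h2 : ‖coeff m g‖ * (min r s) ^ (∑ i, m i) ≤ D :=
      (mul_le_mul_of_nonneg_left (pow_le_pow_left₀ h0 (min_le_right _ _) _)
        (norm_nonneg _)).trans (hD m)
    rw [map_add]
    have h3 := IsUltrametricDist.norm_add_le_max (coeff m f) (coeff m g)
    rcases le_total ‖coeff m f‖ ‖coeff m g‖ with h | h
    · rw [max_eq_right h] at h3
      exact (mul_le_mul_of_nonneg_right h3 (pow_nonneg h0 _)).trans (h2.trans (le_max_right _ _))
    · rw [max_eq_left h] at h3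
      exact (mul_le_mul_of_nonneg_right h3 (pow_nonneg h0 _)).trans (h1.trans (le_max_left _ _))
  neg_mem' := by
    rintro f ⟨r, hr, C, hC⟩
    exact ⟨r, hr, C, fun m => by rw [map_neg, norm_neg]; exact hC m⟩
  mul_mem' := by
    classical
    rintro f g ⟨r, hr, C, hC⟩ ⟨s, hs, D, hD⟩
    have h0 : 0 < min r s := lt_min hr hs
    have hC0 : 0 ≤ C := by
      have := hC 0
      simp only [Finsupp.coe_zero, Pi.zero_apply, Finset.sum_const_zero, pow_zero, mul_one] at this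
      exact (norm_nonneg _).trans this
    have hD0 : 0 ≤ D := by
      have := hD 0
      simp only [Finsupp.coe_zero, Pi.zero_apply, Finset.sum_const_zero, pow_zero, mul_one] at this
      exact (norm_nonneg _).trans this
    refine ⟨min r s, h0, C * D, fun m => ?_⟩
    have h1 : ∀ m, ‖coeff m f‖ * (min r s) ^ (∑ i, m i) ≤ C := fun m =>
      (mul_le_mul_of_nonneg_left (pow_le_pow_left₀ h0.le (min_le_left _ _) _)
        (norm_nonneg _)).trans (hC m)
    have h2 : ∀ m, ‖coeff m g‖ * (min r s) ^ (∑ i, m i) ≤ D := fun m =>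
      (mul_le_mul_of_nonneg_left (pow_le_pow_left₀ h0.le (min_le_right _ _) _)
        (norm_nonneg _)).trans (hD m)
    rw [coeff_mul, ← le_div_iff₀ (pow_pos h0 _)]
    refine IsUltrametricDist.norm_sum_le_of_forall_le_of_nonneg
      (div_nonneg (mul_nonneg hC0 hD0) (pow_nonneg h0.le _)) fun x hx => ?_
    rw [Finset.HasAntidiagonal.mem_antidiagonal] at hx
    rw [le_div_iff₀ (pow_pos h0 _), norm_mul, ← hx]
    have h3 : ∑ i, (x.1 + x.2) i = ∑ i, x.1 i + ∑ i, x.2 i := by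
      simp [Finset.sum_add_distrib]
    rw [h3, pow_add]
    calc ‖coeff x.1 f‖ * ‖coeff x.2 g‖ * (min r s ^ (∑ i, x.1 i) * min r s ^ (∑ i, x.2 i))
        = (‖coeff x.1 f‖ * min r s ^ (∑ i, x.1 i)) * (‖coeff x.2 g‖ * min r s ^ (∑ i, x.2 i)) := by
          ring
      _ ≤ C * D := mul_le_mul (h1 _) (h2 _)
          (mul_nonneg (norm_nonneg _) (pow_nonneg h0.le _)) hC0

variable {n : ℕ} {k : Type*} [NontriviallyNormedField k] [IsUltrametricDist k]

lemma mem_conv {f : MvPowerSeries (Fin n) k} : f ∈ Conv n k ↔ ∃ r : ℝ, 0 < r ∧ ∃ C : ℝ,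
    ∀ m : Fin n →₀ ℕ, ‖MvPowerSeries.coeff m f‖ * r ^ (∑ i, m i) ≤ C := Iff.rfl

lemma mem_of_le_one {f : MvPowerSeries (Fin n) k} (h : ∀ m, ‖coeff m f‖ ≤ 1) : f ∈ Conv n k :=
  ⟨1, one_pos, 1, fun m => by simpa using h m⟩

/-- convenient form of convergence -/
lemma exists_c {f : MvPowerSeries (Fin n) k} (hf : f ∈ Conv n k) :
    ∃ c : k, 1 < ‖c‖ ∧ ∀ m, ‖coeff m f‖ ≤ ‖c‖ ^ (∑ i, m i + 1) := by
  obtain ⟨r, hr, C, hC⟩ := hf
  obtain ⟨c, hc⟩ := NormedField.exists_lt_norm k (max 1 (max C r⁻¹))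
  have h1 : 1 < ‖c‖ := (le_max_left _ _).trans_lt hc
  have h2 : C ≤ ‖c‖ := ((le_max_left _ _).trans (le_max_right _ _)).trans hc.le
  have h3 : r⁻¹ ≤ ‖c‖ := ((le_max_right _ _).trans (le_max_right _ _)).trans hc.le
  refine ⟨c, h1, fun m => ?_⟩
  have h4 := hC m
  rw [← le_div_iff₀ (pow_pos hr _)] at h4
  refine h4.trans ?_
  rw [div_eq_mul_inv, ← inv_pow, pow_succ']
  exact mul_le_mul h2 (pow_le_pow_left₀ (inv_nonneg.2 hr.le) h3 _)
    (pow_nonneg (inv_nonneg.2 hr.le) _) (norm_nonneg _)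

lemma inv_mem {f : MvPowerSeries (Fin n) k} (hf : f ∈ Conv n k) (h0 : constantCoeff f ≠ 0) :
    f⁻¹ ∈ Conv n k := by
  classical
  obtain ⟨r, hr, C, hC⟩ := hf
  set a := ‖constantCoeff f‖ with ha
  have ha0 : 0 < a := norm_pos_iff.2 h0
  set ρ : ℝ := max r⁻¹ 1 * max (C / a) 1 with hρ
  have hρ1 : 1 ≤ ρ := by
    have h1 : (1 : ℝ) ≤ max r⁻¹ 1 := le_max_right _ _
    have h2 : (1 : ℝ) ≤ max (C / a) 1 := le_max_right _ _
    exact one_le_mul_of_one_le_of_one_le h1 h2
  have hρ0 : 0 < ρ := lt_of_lt_of_le one_pos hρ1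
  have hbound : ∀ m : Fin n →₀ ℕ, m ≠ 0 → ‖coeff m f‖ ≤ a * ρ ^ (∑ i, m i) := by
    intro m hm
    have hd : 1 ≤ ∑ i, m i := by
      by_contra hcon
      apply hm
      ext i
      have h1 : ∑ i, m i = 0 := by omega
      exact Finset.sum_eq_zero_iff.1 h1 i (Finset.mem_univ i)
    have h4 := hC m
    rw [← le_div_iff₀ (pow_pos hr _)] at h4
    refine h4.trans ?_
    rw [hρ, mul_pow, div_eq_mul_inv, ← inv_pow]
    have h5 : C ≤ a * max (C / a) 1 ^ (∑ i, m i) := by
      have h6 : C / a ≤ max (C / a) 1 ^ (∑ i, m i) := by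
        exact (le_max_left (C / a) 1).trans (le_self_pow₀ (le_max_right _ _) (by omega))
      rw [div_le_iff₀ ha0] at h6
      linarith
    have h7 : (r⁻¹) ^ (∑ i, m i) ≤ (max r⁻¹ 1) ^ (∑ i, m i) :=
      pow_le_pow_left₀ (inv_nonneg.2 hr.le) (le_max_left _ _) _
    calc C * r⁻¹ ^ (∑ i, m i) ≤ (a * max (C / a) 1 ^ (∑ i, m i)) * (max r⁻¹ 1) ^ (∑ i, m i) :=
          mul_le_mul h5 h7 (pow_nonneg (inv_nonneg.2 hr.le) _)
            (mul_nonneg ha0.le (pow_nonneg (le_trans zero_le_one (le_max_right _ _)) _))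
      _ = a * (max r⁻¹ 1 ^ (∑ i, m i) * max (C / a) 1 ^ (∑ i, m i)) := by ring
  have hinv : ∀ N : ℕ, ∀ m : Fin n →₀ ℕ, ∑ i, m i = N → ‖coeff m f⁻¹‖ ≤ a⁻¹ * ρ ^ (∑ i, m i) := by
    intro N
    induction N using Nat.strong_induction_on with
    | _ N ih =>
      intro m hm
      rw [coeff_inv]
      split_ifs with hm0
      · rw [norm_inv, hm0]; simp [ha]
      · rw [norm_mul, norm_neg, norm_inv]
        refine mul_le_mul_of_nonneg_left ?_ (inv_nonneg.2 ha0.le)
        refine IsUltrametricDist.norm_sum_le_of_forall_le_of_nonneg (pow_nonneg hρ0.le _)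
          fun x hx => ?_
        rw [Finset.HasAntidiagonal.mem_antidiagonal] at hx
        split_ifs with hlt
        · have h3 : ∑ i, m i = ∑ i, x.1 i + ∑ i, x.2 i := by
            rw [← hx]; simp [Finset.sum_add_distrib]
          have hx1 : x.1 ≠ 0 := by
            intro h; rw [h, zero_add] at hx; exact hlt.ne hx
          have hd : 1 ≤ ∑ i, x.1 i := by
            by_contra hcon
            apply hx1
            ext i
            have h1 : ∑ i, x.1 i = 0 := by omega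
            exact Finset.sum_eq_zero_iff.1 h1 i (Finset.mem_univ i)
          have h4 := ih (∑ i, x.2 i) (by omega) x.2 rfl
          rw [norm_mul, h3, pow_add]
          calc ‖coeff x.1 f‖ * ‖coeff x.2 f⁻¹‖
              ≤ (a * ρ ^ (∑ i, x.1 i)) * (a⁻¹ * ρ ^ (∑ i, x.2 i)) :=
                mul_le_mul (hbound _ hx1) h4 (norm_nonneg _)
                  (mul_nonneg ha0.le (pow_nonneg hρ0.le _))
            _ = ρ ^ (∑ i, x.1 i) * ρ ^ (∑ i, x.2 i) := by field_simp
        · rw [norm_zero]; exact pow_nonneg hρ0.le _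
  refine ⟨ρ⁻¹, inv_pos.2 hρ0, a⁻¹, fun m => ?_⟩
  rw [inv_pow, ← div_eq_mul_inv, div_le_iff₀ (pow_pos hρ0 _)]
  exact hinv _ m rfl

end H907K
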