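import Pool.Agent.H907F.Conv

/-! The trace-like operator attached to a bounded functional; split F-regularity. -/

set_option linter.unusedSectionVars false

namespace H907K

open MvPowerSeries

variable {n : ℕ} {k : Type*} [NontriviallyNormedField k] [IsUltrametricDist k]

/-- constant exponent -/
noncomputable def cst (n : ℕ) (t : ℕ) : Fin n →₀ ℕ := Finsupp.equivFunOnFinite.symm fun _ => t

@[simp] lemma cst_apply (t : ℕ) (i : Fin n) : cst n t i = t := rfl

section
variable (p : ℕ) [hp : Fact p.Prime] [CharP k p]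

lemma coeff_pow_smul (f : MvPowerSeries (Fin n) k) (m : Fin n →₀ ℕ) :
    coeff (p • m) (f ^ p) = (coeff m f) ^ p := by
  rw [← map_frobenius_expand p hp.out.ne_zero, coeff_map, coeff_expand_smul, frobenius_def]

lemma coeff_pow_not (f : MvPowerSeries (Fin n) k) (m : Fin n →₀ ℕ) (h : ∀ m', m ≠ p • m') :
    coeff m (f ^ p) = 0 := by
  have hex : ∃ i, ¬ p ∣ m i := by
    by_contra hcon
    push Not at hcon
    apply h (Finsupp.equivFunOnFinite.symm fun i => m i / p)
    ext i
    simp only [Finsupp.smul_apply, Finsupp.coe_equivFunOnFinite_symm, smul_eq_mul]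
    exact (Nat.mul_div_cancel' (hcon i)).symm
  obtain ⟨i, hi⟩ := hex
  rw [← map_frobenius_expand p hp.out.ne_zero, coeff_map,
    coeff_expand_of_not_dvd p hp.out.ne_zero _ hi, map_zero]

/-- the operator on power series -/
noncomputable def PhiS (l : k →+ k) : MvPowerSeries (Fin n) k →+ MvPowerSeries (Fin n) k where
  toFun f := fun m => l (coeff (p • m + cst n (p - 1)) f)
  map_zero' := by ext m; change l _ = _; rw [map_zero, map_zero]; rfl
  map_add' f g := by ext m; change l _ = _; rw [map_add, map_add]; rfl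

lemma coeff_PhiS (l : k →+ k) (f : MvPowerSeries (Fin n) k) (m : Fin n →₀ ℕ) :
    coeff m (PhiS p l f) = l (coeff (p • m + cst n (p - 1)) f) := rfl

lemma PhiS_lin (l : k →+ k) (hl : ∀ a b : k, l (a ^ p * b) = a * l b)
    (r f : MvPowerSeries (Fin n) k) : PhiS p l (r ^ p * f) = r * PhiS p l f := by
  classical
  ext m
  rw [coeff_PhiS, coeff_mul, coeff_mul]
  have key : ∑ x ∈ Finset.HasAntidiagonal.antidiagonal m, (coeff x.1 r) ^ p * coeff (p • x.2 + cst n (p - 1)) f =
      ∑ x ∈ Finset.HasAntidiagonal.antidiagonal (p • m + cst n (p - 1)), coeff x.1 (r ^ p) * coeff x.2 f := by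
    refine Finset.sum_of_injOn (fun x => (p • x.1, p • x.2 + cst n (p - 1))) ?_ ?_ ?_ ?_
    · rintro ⟨a, b⟩ _ ⟨c, d⟩ _ h
      simp only [Prod.mk.injEq] at h
      have h1 : a = c := by
        ext i
        have := DFunLike.congr_fun h.1 i
        simp only [Finsupp.smul_apply, smul_eq_mul] at this
        exact Nat.eq_of_mul_eq_mul_left hp.out.pos this
      have h2 : b = d := by
        ext i
        have := DFunLike.congr_fun h.2 i
        simp only [Finsupp.add_apply, Finsupp.smul_apply, smul_eq_mul] at this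
        exact Nat.eq_of_mul_eq_mul_left hp.out.pos (Nat.add_right_cancel this)
      rw [h1, h2]
    · rintro ⟨a, b⟩ hab
      rw [Finset.mem_coe, Finset.HasAntidiagonal.mem_antidiagonal] at hab ⊢
      simp only at hab ⊢
      rw [← hab, smul_add, add_assoc]
    · rintro ⟨a, b⟩ hab hnot
      rw [Finset.HasAntidiagonal.mem_antidiagonal] at hab
      simp only at hab ⊢
      by_cases ha : ∃ a', a = p • a'
      · exfalso
        obtain ⟨a', rfl⟩ := ha
        apply hnot
        have hle : ∀ i, a' i ≤ m i := by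
          intro i
          have h1 := DFunLike.congr_fun hab i
          simp only [Finsupp.add_apply, Finsupp.smul_apply, smul_eq_mul, cst_apply] at h1
          have h2 : p * a' i < p * (m i + 1) := by
            have := hp.out.pos
            rw [mul_add, mul_one]; omega
          have := Nat.lt_of_mul_lt_mul_left h2
          omega
        refine ⟨(a', m - a'), ?_, ?_⟩
        · rw [Finset.mem_coe, Finset.HasAntidiagonal.mem_antidiagonal]
          ext i
          simp only [Finsupp.add_apply, Finsupp.tsub_apply]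
          have := hle i; omega
        · simp only [Prod.mk.injEq, true_and]
          ext i
          have h1 := DFunLike.congr_fun hab i
          simp only [Finsupp.add_apply, Finsupp.smul_apply, smul_eq_mul, cst_apply,
            Finsupp.tsub_apply] at h1 ⊢
          obtain ⟨t, ht⟩ := Nat.exists_eq_add_of_le (hle i)
          rw [ht] at h1 ⊢
          rw [mul_add] at h1
          have : a' i + t - a' i = t := by omega
          rw [this]; omega
      · push Not at ha
        rw [coeff_pow_not p r a ha, zero_mul]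
    · rintro ⟨a, b⟩ _
      simp only [coeff_pow_smul]
  rw [← key, map_sum]
  exact Finset.sum_congr rfl fun x _ => by rw [hl, coeff_PhiS]

lemma PhiS_mem (l : k →+ k) (hl : ∀ a b : k, l (a ^ p * b) = a * l b)
    (B : ℝ) (hB : ∀ a : k, ‖a‖ ≤ 1 → ‖l a‖ ≤ B) {f : MvPowerSeries (Fin n) k}
    (hf : f ∈ Conv n k) : PhiS p l f ∈ Conv n k := by
  obtain ⟨c, hc1, hc⟩ := exists_c hf
  have hc0 : (0 : ℝ) < ‖c‖ := lt_trans one_pos hc1
  have hcne : c ≠ 0 := norm_pos_iff.1 hc0
  have hB0 : 0 ≤ B := by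
    have := hB 0 (by simp)
    rw [map_zero, norm_zero] at this
    exact this
  refine ⟨‖c‖⁻¹, inv_pos.2 hc0, ‖c‖ ^ (n + 1) * B, fun m => ?_⟩
  rw [coeff_PhiS]
  set N := ∑ i, m i + n + 1 with hN
  set g := coeff (p • m + cst n (p - 1)) f with hg
  have h1 : ‖g‖ ≤ ‖c‖ ^ (p * N) := by
    refine (hc _).trans (pow_le_pow_right₀ hc1.le ?_)
    have h2 : ∑ i, (p • m + cst n (p - 1)) i = p * ∑ i, m i + n * (p - 1) := by
      simp [Finset.sum_add_distrib, Finset.mul_sum]
    rw [h2, hN]
    have h3 := hp.out.one_le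
    obtain ⟨t, ht⟩ := Nat.exists_eq_add_of_le h3
    rw [ht]
    have h4 : 1 + t - 1 = t := by omega
    rw [h4]
    nlinarith
  have h2 : g = (c ^ N) ^ p * (g / (c ^ N) ^ p) := by
    field_simp
  have h3 : ‖g / (c ^ N) ^ p‖ ≤ 1 := by
    rw [norm_div, norm_pow, norm_pow, ← pow_mul, mul_comm N p, div_le_one (pow_pos hc0 _)]
    exact h1
  have h4 : ‖l g‖ ≤ ‖c‖ ^ N * B := by
    rw [h2, hl, norm_mul, norm_pow]
    exact mul_le_mul_of_nonneg_left (hB _ h3) (pow_nonneg hc0.le _)
  calc ‖l g‖ * ‖c‖⁻¹ ^ (∑ i, m i) ≤ (‖c‖ ^ N * B) * ‖c‖⁻¹ ^ (∑ i, m i) :=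
        mul_le_mul_of_nonneg_right h4 (pow_nonneg (inv_nonneg.2 hc0.le) _)
    _ = ‖c‖ ^ (n + 1) * B := by
        rw [hN, add_assoc, pow_add, inv_pow]
        field_simp

/-- the operator on convergent power series -/
noncomputable def Phi (l : k →+ k) (hl : ∀ a b : k, l (a ^ p * b) = a * l b)
    (B : ℝ) (hB : ∀ a : k, ‖a‖ ≤ 1 → ‖l a‖ ≤ B) : Conv n k →+ Conv n k where
  toFun f := ⟨PhiS p l f.1, PhiS_mem p l hl B hB f.2⟩
  map_zero' := Subtype.ext (map_zero (PhiS p l))
  map_add' f g := Subtype.ext (map_add (PhiS p l) f.1 g.1)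

lemma iter_Phi (l : k →+ k) (hl : ∀ a b : k, l (a ^ p * b) = a * l b)
    (B : ℝ) (hB : ∀ a : k, ‖a‖ ≤ 1 → ‖l a‖ ≤ B) (hl1 : l 1 = 1) (e : ℕ) :
    ∃ K : Conv n k →+ Conv n k, (∀ r z, K (r ^ (p ^ e) * z) = r * K z) ∧
      ∀ (f : Conv n k) (m : Fin n →₀ ℕ), coeff (p ^ e • m + cst n (p ^ e - 1)) f.1 = 1 →
        coeff m (K f).1 = 1 := by
  induction e with
  | zero =>
    refine ⟨AddMonoidHom.id _, fun r z => by simp, fun f m h => ?_⟩
    have : p ^ 0 • m + cst n (p ^ 0 - 1) = m := by
      ext i; simp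
    rw [this] at h
    exact h
  | succ e ih =>
    obtain ⟨K, hK, hK1⟩ := ih
    refine ⟨K.comp (Phi p l hl B hB), fun r z => ?_, fun f m h => ?_⟩
    · simp only [AddMonoidHom.comp_apply]
      rw [pow_succ, pow_mul]
      have : Phi p l hl B hB ((r ^ p ^ e) ^ p * z) = r ^ p ^ e * Phi p l hl B hB z :=
        Subtype.ext (PhiS_lin p l hl _ _)
      rw [this, hK]
    · simp only [AddMonoidHom.comp_apply]
      apply hK1
      change coeff _ (PhiS p l f.1) = 1
      rw [coeff_PhiS]
      have : p • (p ^ e • m + cst n (p ^ e - 1)) + cst n (p - 1) =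
          p ^ (e + 1) • m + cst n (p ^ (e + 1) - 1) := by
        ext i
        simp only [Finsupp.add_apply, Finsupp.smul_apply, smul_eq_mul, cst_apply]
        have h1 : 1 ≤ p ^ e := Nat.one_le_pow _ _ hp.out.pos
        obtain ⟨t, ht⟩ := Nat.exists_eq_add_of_le h1
        have h2 := hp.out.one_le
        obtain ⟨s, hs⟩ := Nat.exists_eq_add_of_le h2
        have h3 : p ^ (e + 1) = p ^ e * p := pow_succ _ _
        rw [h3, ht, hs]
        have h4 : 1 + t - 1 = t := by omega
        have h5 : 1 + s - 1 = s := by omega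
        have h6 : (1 + t) * (1 + s) - 1 = t + s + t * s := by
          have : (1 + t) * (1 + s) = 1 + (t + s + t * s) := by ring
          rw [this]; omega
        rw [h4, h5, h6]; ring
      rw [this, h, hl1]

theorem split_of_bounded (l : k →+ k) (hl : ∀ a b : k, l (a ^ p * b) = a * l b)
    (B : ℝ) (hB : ∀ a : k, ‖a‖ ≤ 1 → ‖l a‖ ≤ B) (hl1 : l 1 = 1) (c : Conv n k) (hc : c ≠ 0) :
    ∃ e : ℕ, 1 ≤ e ∧ ∃ ψ : Conv n k →+ Conv n k,
      (∀ r z, ψ (r ^ (p ^ e) * z) = r * ψ z) ∧ ψ c = 1 := by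
  classical
  obtain ⟨m0, hm0⟩ : ∃ m0, coeff m0 c.1 ≠ 0 := by
    by_contra hcon
    push Not at hcon
    exact hc (Subtype.ext (MvPowerSeries.ext fun m => by rw [hcon m]; rfl))
  set e := ∑ i, m0 i + 1 with he
  have hlt : ∀ i, m0 i < p ^ e := by
    intro i
    have h1 : m0 i ≤ ∑ i, m0 i := Finset.single_le_sum (f := fun i => m0 i)
      (fun _ _ => Nat.zero_le _) (Finset.mem_univ i)
    have h2 : e < p ^ e := Nat.lt_pow_self hp.out.one_lt
    omega
  obtain ⟨K, hK, hK1⟩ := iter_Phi (n := n) p l hl B hB hl1 e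
  have hmonoS : ∀ (m : Fin n →₀ ℕ) (b : k), monomial m b ∈ Conv n k := by
    intro m b
    refine ⟨1, one_pos, ‖b‖, fun m' => ?_⟩
    rw [coeff_monomial, one_pow, mul_one]
    split_ifs <;> simp
  let mon : Conv n k := ⟨monomial (cst n (p ^ e - 1) - m0) (coeff m0 c.1)⁻¹, hmonoS _ _⟩
  have h1 : coeff (0 : Fin n →₀ ℕ) (K (mon * c)).1 = 1 := by
    apply hK1
    rw [smul_zero, zero_add]
    change coeff (cst n (p ^ e - 1)) (monomial (cst n (p ^ e - 1) - m0) (coeff m0 c.1)⁻¹ * c.1) = 1
    have h2 : cst n (p ^ e - 1) = (cst n (p ^ e - 1) - m0) + m0 := by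
      ext i
      simp only [Finsupp.add_apply, Finsupp.tsub_apply, cst_apply]
      have := hlt i; omega
    conv_lhs => rw [h2]
    rw [add_tsub_cancel_right, coeff_add_monomial_mul, inv_mul_cancel₀ hm0]
  set u := K (mon * c) with hu
  have hu0 : constantCoeff u.1 ≠ 0 := by
    rw [← coeff_zero_eq_constantCoeff_apply, h1]; exact one_ne_zero
  let uinv : Conv n k := ⟨u.1⁻¹, inv_mem u.2 hu0⟩
  have huinv : uinv * u = 1 := Subtype.ext (MvPowerSeries.inv_mul_cancel _ hu0)
  refine ⟨e, by omega, (AddMonoidHom.mulLeft uinv).comp (K.comp (AddMonoidHom.mulLeft mon)),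
    fun r z => ?_, ?_⟩
  · simp only [AddMonoidHom.comp_apply, AddMonoidHom.coe_mulLeft]
    have : mon * (r ^ p ^ e * z) = r ^ p ^ e * (mon * z) := by ring
    rw [this, hK]; ring
  · simp only [AddMonoidHom.comp_apply, AddMonoidHom.coe_mulLeft]
    rw [← hu, huinv]

end

end H907K
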