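import Pool.Agent.H907F.Conv2

/-! Gliding hump: a `p^{-1}`-linear map on convergent power series gives a bounded functional. -/

set_option linter.unusedSectionVars false

namespace H907K

open MvPowerSeries

variable {n : ℕ} {k : Type*} [NontriviallyNormedField k] [IsUltrametricDist k]

lemma monomial_mem (m : Fin n →₀ ℕ) (b : k) : monomial m b ∈ Conv n k := by
  classical
  refine ⟨1, one_pos, ‖b‖, fun m' => ?_⟩
  rw [coeff_monomial, one_pow, mul_one]
  split_ifs <;> simp

/-- monomials as convergent power series -/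
noncomputable def Mon (m : Fin n →₀ ℕ) (b : k) : Conv n k := ⟨monomial m b, monomial_mem m b⟩

/-- coefficient of a convergent power series -/
noncomputable def cf (m : Fin n →₀ ℕ) : Conv n k →+ k where
  toFun f := coeff m f.1
  map_zero' := map_zero (coeff m)
  map_add' f g := map_add (coeff m) f.1 g.1

lemma cf_Mon_mul (m m' : Fin n →₀ ℕ) (b : k) (f : Conv n k) :
    cf m (Mon m' b * f) = if m' ≤ m then b * cf (m - m') f else 0 :=
  coeff_monomial_mul _ _ _ _

/-- a series in the single variable `X_i` -/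
noncomputable def ser (i : Fin n) (A : ℕ → k) : MvPowerSeries (Fin n) k :=
  fun m => if m = Finsupp.single i (m i) then A (m i) else 0

lemma coeff_ser (i : Fin n) (A : ℕ → k) (m : Fin n →₀ ℕ) :
    coeff m (ser i A) = if m = Finsupp.single i (m i) then A (m i) else 0 := rfl

lemma ser_mem (i : Fin n) (A : ℕ → k) (hA : ∀ t, ‖A t‖ ≤ 1) : ser i A ∈ Conv n k := by
  refine mem_of_le_one fun m => ?_
  rw [coeff_ser]
  split_ifs
  · exact hA _
  · simp

lemma ser_decomp (i : Fin n) (q : ℕ → ℕ) (hq : StrictMono q) (a : ℕ → k) (J : ℕ) :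
    ser i (Function.extend q a 0) =
      ∑ j ∈ Finset.range J, monomial (Finsupp.single i (q j)) (a j) +
        monomial (Finsupp.single i (q J)) 1 *
          ser i (fun t => Function.extend q a 0 (t + q J)) := by
  classical
  ext m
  rw [map_add, map_sum, coeff_monomial_mul, coeff_ser, coeff_ser]
  simp only [coeff_monomial, Finsupp.single_le_iff, one_mul]
  by_cases hm : ∃ t, m = Finsupp.single i t
  · obtain ⟨t, rfl⟩ := hm
    have h1 : (Finsupp.single i t - Finsupp.single i (q J) : Fin n →₀ ℕ) =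
        Finsupp.single i (t - q J) := Finsupp.single_tsub.symm
    simp only [h1, Finsupp.single_eq_same, if_true]
    by_cases hJ : q J ≤ t
    · rw [if_pos hJ, Finset.sum_eq_zero, zero_add, Nat.sub_add_cancel hJ]
      intro j hj
      rw [Finset.mem_range] at hj
      have h2 : q j < q J := hq hj
      rw [if_neg]
      intro h3
      have h4 := Finsupp.single_injective i h3
      omega
    · rw [if_neg hJ, add_zero]
      push Not at hJ
      by_cases hex : ∃ j, q j = t
      · obtain ⟨j, rfl⟩ := hex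
        have hj : j < J := hq.lt_iff_lt.1 hJ
        rw [hq.injective.extend_apply, Finset.sum_eq_single j]
        · rw [if_pos rfl]
        · intro j' _ hne
          rw [if_neg]
          intro h3
          have h4 := Finsupp.single_injective i h3
          exact hne (hq.injective h4.symm)
        · intro h; exact absurd (Finset.mem_range.2 hj) h
      · rw [Function.extend_apply' _ _ _ hex, Finset.sum_eq_zero]
        · rfl
        · intro j _
          rw [if_neg]
          intro h3
          exact hex ⟨j, (Finsupp.single_injective i h3).symm⟩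
  · rw [if_neg (fun h => hm ⟨_, h⟩), Finset.sum_eq_zero, zero_add]
    · split_ifs with h1 h2
      · exfalso
        apply hm
        refine ⟨(m - Finsupp.single i (q J)) i + q J, ?_⟩
        rw [Finsupp.single_add, ← h2, tsub_add_cancel_of_le (Finsupp.single_le_iff.2 h1)]
      · rfl
      · rfl
    · intro j _
      rw [if_neg]
      intro h3
      exact hm ⟨_, h3⟩

lemma ser_decomp' (i : Fin n) (q : ℕ → ℕ) (hq : StrictMono q) (a : ℕ → k) (J : ℕ)
    (h1 : ser i (Function.extend q a 0) ∈ Conv n k)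
    (h2 : ser i (fun t => Function.extend q a 0 (t + q J)) ∈ Conv n k) :
    (⟨ser i (Function.extend q a 0), h1⟩ : Conv n k) =
      ∑ j ∈ Finset.range J, Mon (Finsupp.single i (q j)) (a j) +
        Mon (Finsupp.single i (q J)) 1 *
          ⟨ser i (fun t => Function.extend q a 0 (t + q J)), h2⟩ := by
  apply Subtype.ext
  rw [Subring.coe_add, Subring.coe_mul]
  have h3 : ((∑ j ∈ Finset.range J, Mon (Finsupp.single i (q j)) (a j) : Conv n k) :
      MvPowerSeries (Fin n) k) = ∑ j ∈ Finset.range J, monomial (Finsupp.single i (q j)) (a j) :=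
    map_sum (Conv n k).subtype _ _
  rw [h3]
  exact ser_decomp i q hq a J

lemma Mon_pow (i : Fin n) (p N : ℕ) : (Mon (Finsupp.single i N) (1 : k) : Conv n k) ^ p =
    Mon (Finsupp.single i (p * N)) 1 := by
  apply Subtype.ext
  rw [Subring.coe_pow]
  change (monomial (Finsupp.single i N) (1 : k)) ^ p = monomial (Finsupp.single i (p * N)) 1
  rw [monomial_pow, one_pow, Finsupp.smul_single, smul_eq_mul]

lemma Mon_pow_mul (i : Fin n) (p N : ℕ) (b : k) :
    (Mon (Finsupp.single i (p * N)) b : Conv n k) =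
      Mon (Finsupp.single i N) (1 : k) ^ p * Mon 0 b := by
  rw [Mon_pow]
  apply Subtype.ext
  rw [Subring.coe_mul]
  change monomial _ _ = monomial _ (1 : k) * monomial _ _
  rw [monomial_mul_monomial, add_zero, one_mul]

theorem bounded_of_map (p : ℕ) [hp : Fact p.Prime] [CharP k p] (i : Fin n)
    (φ : Conv n k →+ Conv n k) (hφ : ∀ r x, φ (r ^ p * x) = r * φ x) (z : Conv n k)
    (μ : Fin n →₀ ℕ) :
    ∃ B : ℝ, ∀ a : k, ‖a‖ ≤ 1 → ‖cf μ (φ (Mon 0 a * z))‖ ≤ B := by
  classical
  by_contra hcon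
  push Not at hcon
  let P : ℕ × k → Prop := fun x => ‖x.2‖ ≤ 1 ∧ (x.1 : ℝ) ^ x.1 < ‖cf μ (φ (Mon 0 x.2 * z))‖
  let r : ℕ × k → ℕ × k → Prop := fun x y => x.1 + μ i < y.1 ∧
    ‖cf (μ + Finsupp.single i (y.1 - x.1)) (φ (Mon 0 x.2 * z))‖ < ‖cf μ (φ (Mon 0 y.2 * z))‖
  obtain ⟨f, hf, hr⟩ := exists_seq_of_forall_finset_exists P r (by
    intro s _
    set N := s.sup (fun x => x.1 + μ i) + 1 with hN
    set M := max ((N : ℝ) ^ N)
      (∑ x ∈ s, ‖cf (μ + Finsupp.single i (N - x.1)) (φ (Mon 0 x.2 * z))‖) with hM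
    obtain ⟨a, ha, hMa⟩ := hcon M
    refine ⟨(N, a), ⟨ha, (le_max_left _ _).trans_lt hMa⟩, fun x hx => ⟨?_, ?_⟩⟩
    · have := Finset.le_sup (f := fun x : ℕ × k => x.1 + μ i) hx
      simp only at this ⊢; omega
    · refine lt_of_le_of_lt ?_ ((le_max_right _ _).trans_lt hMa)
      exact Finset.single_le_sum
        (f := fun x : ℕ × k => ‖cf (μ + Finsupp.single i (N - x.1)) (φ (Mon 0 x.2 * z))‖)
        (fun _ _ => norm_nonneg _) hx)
  set N : ℕ → ℕ := fun j => (f j).1 with hNdef
  set a : ℕ → k := fun j => (f j).2 with hadef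
  have ha : ∀ j, ‖a j‖ ≤ 1 := fun j => (hf j).1
  have hbig : ∀ j, (N j : ℝ) ^ N j < ‖cf μ (φ (Mon 0 (a j) * z))‖ := fun j => (hf j).2
  have hN : StrictMono N := strictMono_nat_of_lt_succ (fun j => by
    have h1 : N j + μ i < N (j + 1) := (hr j (j + 1) (lt_add_one j)).1
    omega)
  have hsmall : ∀ j j', j < j' →
      ‖cf (μ + Finsupp.single i (N j' - N j)) (φ (Mon 0 (a j) * z))‖ <
        ‖cf μ (φ (Mon 0 (a j') * z))‖ := fun j j' h => (hr j j' h).2
  set q : ℕ → ℕ := fun j => p * N j with hqdef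
  have hq : StrictMono q := fun j j' h => Nat.mul_lt_mul_of_pos_left (hN h) hp.out.pos
  have hA : ∀ t, ‖Function.extend q a 0 t‖ ≤ 1 := by
    intro t
    by_cases hex : ∃ j, q j = t
    · obtain ⟨j, rfl⟩ := hex
      rw [hq.injective.extend_apply]; exact ha j
    · rw [Function.extend_apply' _ _ _ hex]; simp
  set F : Conv n k := ⟨ser i (Function.extend q a 0), ser_mem i _ hA⟩ with hF
  have key : ∀ J, ‖cf (μ + Finsupp.single i (N J)) (φ (F * z))‖ =
      ‖cf μ (φ (Mon 0 (a J) * z))‖ := by
    intro J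
    set G : Conv n k := ⟨ser i (fun t => Function.extend q a 0 (t + q (J + 1))),
      ser_mem i _ (fun t => hA _)⟩ with hG
    have hdec : F = ∑ j ∈ Finset.range (J + 1), Mon (Finsupp.single i (N j)) 1 ^ p * Mon 0 (a j) +
        Mon (Finsupp.single i (N (J + 1))) 1 ^ p * G := by
      rw [Mon_pow, ← Finset.sum_congr rfl (fun j _ => Mon_pow_mul i p (N j) (a j))]
      exact ser_decomp' i q hq a (J + 1) _ _
    have hφF : φ (F * z) = ∑ j ∈ Finset.range (J + 1),
        Mon (Finsupp.single i (N j)) 1 * φ (Mon 0 (a j) * z) +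
        Mon (Finsupp.single i (N (J + 1))) 1 * φ (G * z) := by
      rw [hdec, add_mul, Finset.sum_mul, map_add, map_sum, mul_assoc, hφ]
      congr 1
      refine Finset.sum_congr rfl fun j _ => ?_
      rw [mul_assoc, hφ]
    have hlast : cf (μ + Finsupp.single i (N J)) (Mon (Finsupp.single i (N (J + 1))) 1 * φ (G * z))
        = 0 := by
      rw [cf_Mon_mul, if_neg]
      rw [Finsupp.single_le_iff]
      have h1 : N J + μ i < N (J + 1) := (hr J (J + 1) (lt_add_one J)).1
      simp only [Finsupp.add_apply, Finsupp.single_eq_same]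
      omega
    have hterm : ∀ j, j ≤ J → cf (μ + Finsupp.single i (N J))
        (Mon (Finsupp.single i (N j)) 1 * φ (Mon 0 (a j) * z)) =
        cf (μ + Finsupp.single i (N J - N j)) (φ (Mon 0 (a j) * z)) := by
      intro j hj
      have h1 : N j ≤ N J := hN.monotone hj
      have h5 : μ + Finsupp.single i (N J) - Finsupp.single i (N j) =
          μ + Finsupp.single i (N J - N j) := by
        ext t
        by_cases ht : t = i
        · subst ht
          simp only [Finsupp.tsub_apply, Finsupp.add_apply, Finsupp.single_eq_same]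
          omega
        · simp [Finsupp.single_eq_of_ne ht]
      rw [cf_Mon_mul, if_pos, one_mul, h5]
      · rw [Finsupp.single_le_iff]
        simp only [Finsupp.add_apply, Finsupp.single_eq_same]
        omega
    rw [hφF, map_add, hlast, add_zero, map_sum, Finset.sum_range_succ, hterm J le_rfl,
      Nat.sub_self, Finsupp.single_zero, add_zero]
    have hpos : 0 < ‖cf μ (φ (Mon 0 (a J) * z))‖ :=
      lt_of_le_of_lt (pow_nonneg (Nat.cast_nonneg _) _) (hbig J)
    have hsum : ‖∑ j ∈ Finset.range J, cf (μ + Finsupp.single i (N J))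
        (Mon (Finsupp.single i (N j)) 1 * φ (Mon 0 (a j) * z))‖ <
        ‖cf μ (φ (Mon 0 (a J) * z))‖ := by
      refine Finset.sum_induction _ (fun x : k => ‖x‖ < ‖cf μ (φ (Mon 0 (a J) * z))‖) ?_ ?_ ?_
      · intro x y hx hy
        exact (IsUltrametricDist.norm_add_le_max x y).trans_lt (max_lt hx hy)
      · simpa using hpos
      · intro j hj
        rw [Finset.mem_range] at hj
        rw [hterm j hj.le]
        exact hsmall j J hj
    rw [IsUltrametricDist.norm_add_eq_max_of_norm_ne_norm hsum.ne, max_eq_right hsum.le]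
  obtain ⟨c, hc1, hc⟩ := exists_c (φ (F * z)).2
  set d := ∑ t, μ t + 1 with hd
  obtain ⟨J, hJ⟩ := exists_nat_ge (‖c‖ ^ (d + 1))
  have h1 := hc (μ + Finsupp.single i (N J))
  have h2 : ∑ t, (μ + Finsupp.single i (N J)) t + 1 = N J + d := by
    have : ∑ t, (Finsupp.single i (N J)) t = N J := by
      simp [Finsupp.single_apply]
    simp only [Finsupp.add_apply, Finset.sum_add_distrib]
    rw [this]; omega
  rw [h2] at h1
  have h3 := hbig J
  rw [← key J] at h3
  have h4 : ‖cf (μ + Finsupp.single i (N J)) (φ (F * z))‖ ≤ ‖c‖ ^ (N J + d) := h1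
  have h5 : (J : ℝ) ≤ N J := by exact_mod_cast hN.le_apply
  have h6 : ‖c‖ ^ (d + 1) ≤ (N J : ℝ) := hJ.trans h5
  have h7 : 1 ≤ N J := by
    have : (1 : ℝ) ≤ N J := (one_le_pow₀ hc1.le).trans h6
    exact_mod_cast this
  have h8 : ‖c‖ ^ (N J + d) ≤ (N J : ℝ) ^ N J := by
    calc ‖c‖ ^ (N J + d) ≤ ‖c‖ ^ ((d + 1) * N J) := by
          refine pow_le_pow_right₀ hc1.le ?_
          nlinarith
      _ = (‖c‖ ^ (d + 1)) ^ N J := by rw [pow_mul]
      _ ≤ (N J : ℝ) ^ N J := pow_le_pow_left₀ (pow_nonneg (norm_nonneg _) _) h6 _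
  exact absurd (h3.trans_le (h4.trans h8)) (lt_irrefl _)

end H907K
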