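import Pool.Agent.H907F.Conv3

/-! Main theorems on rings of convergent power series. -/

set_option linter.unusedSectionVars false

namespace H907K

open MvPowerSeries

variable {n : ℕ} {k : Type*} [NontriviallyNormedField k] [IsUltrametricDist k]

lemma Mon_zero_add (a b : k) : (Mon 0 (a + b) : Conv n k) = Mon 0 a + Mon 0 b := by
  apply Subtype.ext
  rw [Subring.coe_add]
  exact map_add (monomial (R := k) (0 : Fin n →₀ ℕ)) a b

lemma Mon_zero_zero : (Mon 0 (0 : k) : Conv n k) = 0 := by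
  apply Subtype.ext
  exact map_zero (monomial (R := k) (0 : Fin n →₀ ℕ))

lemma Mon_zero_one : (Mon 0 (1 : k) : Conv n k) = 1 := by
  apply Subtype.ext
  exact monomial_zero_one

lemma Mon_zero_mul (a b : k) : (Mon 0 (a * b) : Conv n k) = Mon 0 a * Mon 0 b := by
  apply Subtype.ext
  rw [Subring.coe_mul]
  change monomial _ _ = monomial _ _ * monomial _ _
  rw [monomial_mul_monomial, add_zero]

lemma Mon_zero_pow (a : k) (p : ℕ) : (Mon 0 (a ^ p) : Conv n k) = Mon 0 a ^ p := by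
  induction p with
  | zero => rw [pow_zero, pow_zero, Mon_zero_one]
  | succ p ih => rw [pow_succ, pow_succ, Mon_zero_mul, ih]

lemma cf_Mon_zero_mul (m : Fin n →₀ ℕ) (b : k) (f : Conv n k) :
    cf m (Mon 0 b * f) = b * cf m f := by
  rw [cf_Mon_mul, if_pos (show (0 : Fin n →₀ ℕ) ≤ m from zero_le), tsub_zero]

lemma exists_cf_ne {f : Conv n k} (hf : f ≠ 0) : ∃ m, cf m f ≠ 0 := by
  by_contra hcon
  push Not at hcon
  exact hf (Subtype.ext (MvPowerSeries.ext fun m => hcon m))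

theorem exists_bounded (p : ℕ) [hp : Fact p.Prime] [CharP k p] (i : Fin n)
    (φ : Conv n k →+ Conv n k) (hφ : ∀ r x, φ (r ^ p * x) = r * φ x) (hφ0 : φ ≠ 0) :
    ∃ l : k →+ k, (∀ a b : k, l (a ^ p * b) = a * l b) ∧ l 1 = 1 ∧
      ∃ B : ℝ, ∀ a : k, ‖a‖ ≤ 1 → ‖l a‖ ≤ B := by
  obtain ⟨z, hz⟩ : ∃ z, φ z ≠ 0 := by
    by_contra hcon
    push Not at hcon
    exact hφ0 (AddMonoidHom.ext hcon)
  obtain ⟨μ, hμ⟩ := exists_cf_ne hz
  obtain ⟨B, hB⟩ := bounded_of_map p i φ hφ z μ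
  let l : k →+ k :=
    { toFun := fun a => (cf μ (φ z))⁻¹ * cf μ (φ (Mon 0 a * z))
      map_zero' := by rw [Mon_zero_zero, zero_mul, map_zero, map_zero, mul_zero]
      map_add' := fun a b => by rw [Mon_zero_add, add_mul, map_add, map_add, mul_add] }
  have hl : ∀ a, l a = (cf μ (φ z))⁻¹ * cf μ (φ (Mon 0 a * z)) := fun _ => rfl
  refine ⟨l, fun a b => ?_, ?_, ‖(cf μ (φ z))⁻¹‖ * B, fun a ha => ?_⟩
  · rw [hl, hl, Mon_zero_mul, Mon_zero_pow, mul_assoc, hφ, cf_Mon_zero_mul]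
    ring
  · rw [hl, Mon_zero_one, one_mul, inv_mul_cancel₀ hμ]
  · rw [hl, norm_mul]
    exact mul_le_mul_of_nonneg_left (hB a ha) (norm_nonneg _)

theorem split_zero (p : ℕ) (k : Type*) [NontriviallyNormedField k] [IsUltrametricDist k]
    (φ : Conv 0 k →+ Conv 0 k) (hφ : ∀ r x, φ (r ^ p * x) = r * φ x) (hφ0 : φ ≠ 0)
    (c : Conv 0 k) (hc : c ≠ 0) : ∃ e : ℕ, 1 ≤ e ∧ ∃ ψ : Conv 0 k →+ Conv 0 k,
      (∀ r z, ψ (r ^ (p ^ e) * z) = r * ψ z) ∧ ψ c = 1 := by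
  have hunit : ∀ f : Conv 0 k, f ≠ 0 → ∃ g : Conv 0 k, g * f = 1 := by
    intro f hf
    have h0 : constantCoeff f.1 ≠ 0 := by
      obtain ⟨m, hm⟩ := exists_cf_ne hf
      have h1 : m = 0 := Subsingleton.elim _ _
      rw [h1] at hm
      exact hm
    exact ⟨⟨f.1⁻¹, inv_mem f.2 h0⟩, Subtype.ext (MvPowerSeries.inv_mul_cancel _ h0)⟩
  obtain ⟨z, hz⟩ : ∃ z, φ z ≠ 0 := by
    by_contra hcon
    push Not at hcon
    exact hφ0 (AddMonoidHom.ext hcon)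
  obtain ⟨w, hw⟩ := hunit _ hz
  obtain ⟨d, hd⟩ := hunit _ hc
  refine ⟨1, le_rfl, (AddMonoidHom.mulLeft w).comp (φ.comp (AddMonoidHom.mulLeft (d * z))),
    fun r x => ?_, ?_⟩
  · simp only [AddMonoidHom.comp_apply, AddMonoidHom.coe_mulLeft, pow_one]
    have : d * z * (r ^ p * x) = r ^ p * (d * z * x) := by ring
    rw [this, hφ]; ring
  · simp only [AddMonoidHom.comp_apply, AddMonoidHom.coe_mulLeft]
    have : d * z * c = z := by
      calc d * z * c = (d * c) * z := by ring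
        _ = z := by rw [hd, one_mul]
    rw [this, hw]

theorem split_of_nonzero (p : ℕ) [hp : Fact p.Prime] [CharP k p]
    (φ : Conv n k →+ Conv n k) (hφ : ∀ r x, φ (r ^ p * x) = r * φ x) (hφ0 : φ ≠ 0)
    (c : Conv n k) (hc : c ≠ 0) : ∃ e : ℕ, 1 ≤ e ∧ ∃ ψ : Conv n k →+ Conv n k,
      (∀ r z, ψ (r ^ (p ^ e) * z) = r * ψ z) ∧ ψ c = 1 := by
  rcases Nat.eq_zero_or_pos n with rfl | hn
  · exact split_zero p k φ hφ hφ0 c hc
  · obtain ⟨l, hl, hl1, B, hB⟩ := exists_bounded p (⟨0, hn⟩ : Fin n) φ hφ hφ0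
    exact split_of_bounded p l hl B hB hl1 c hc

lemma continuous_of_bounded (p : ℕ) [hp : Fact p.Prime] (l : k →+ k)
    (hl : ∀ a b : k, l (a ^ p * b) = a * l b) (B : ℝ) (hB : ∀ a : k, ‖a‖ ≤ 1 → ‖l a‖ ≤ B) :
    Continuous l := by
  refine continuous_of_continuousAt_zero l ?_
  rw [Metric.continuousAt_iff]
  intro ε hε
  have hB0 : 0 ≤ B := by
    have := hB 0 (by simp)
    rw [map_zero, norm_zero] at this
    exact this
  obtain ⟨π, hπ0, hπ⟩ := NormedField.exists_norm_lt k (div_pos hε (by linarith : 0 < B + 1))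
  have hπne : π ≠ 0 := norm_pos_iff.1 hπ0
  refine ⟨‖π‖ ^ p, pow_pos hπ0 _, fun {a} ha => ?_⟩
  rw [map_zero, dist_zero_right]
  rw [dist_zero_right] at ha
  have h1 : a = π ^ p * (a / π ^ p) := by field_simp
  have h2 : ‖a / π ^ p‖ ≤ 1 := by
    rw [norm_div, norm_pow, div_le_one (pow_pos hπ0 _)]
    exact ha.le
  rw [h1, hl, norm_mul]
  calc ‖π‖ * ‖l (a / π ^ p)‖ ≤ ‖π‖ * B := mul_le_mul_of_nonneg_left (hB _ h2) hπ0.le
    _ ≤ ‖π‖ * (B + 1) := mul_le_mul_of_nonneg_left (by linarith) hπ0.le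
    _ < ε := by rwa [← lt_div_iff₀ (by linarith : 0 < B + 1)]

lemma bounded_of_continuous (p : ℕ) [hp : Fact p.Prime] (l : k →+ k)
    (hl : ∀ a b : k, l (a ^ p * b) = a * l b) (hc : Continuous l) (hl0 : l ≠ 0) :
    ∃ l' : k →+ k, (∀ a b : k, l' (a ^ p * b) = a * l' b) ∧ l' 1 = 1 ∧
      ∃ B : ℝ, ∀ a : k, ‖a‖ ≤ 1 → ‖l' a‖ ≤ B := by
  obtain ⟨b, hb⟩ : ∃ b, l b ≠ 0 := by
    by_contra hcon
    push Not at hcon
    exact hl0 (AddMonoidHom.ext hcon)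
  let l' : k →+ k := (AddMonoidHom.mulLeft (l b)⁻¹).comp (l.comp (AddMonoidHom.mulLeft b))
  have hl'a : ∀ a, l' a = (l b)⁻¹ * l (b * a) := fun _ => rfl
  have hl' : ∀ a c : k, l' (a ^ p * c) = a * l' c := by
    intro a c
    rw [hl'a, hl'a]
    have : b * (a ^ p * c) = a ^ p * (b * c) := by ring
    rw [this, hl]; ring
  have hc' : Continuous l' := by
    have : (l' : k → k) = fun a => (l b)⁻¹ * l (b * a) := funext hl'a
    rw [this]
    exact continuous_const.mul (hc.comp (continuous_const.mul continuous_id))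
  refine ⟨l', hl', by rw [hl'a, mul_one, inv_mul_cancel₀ hb], ?_⟩
  have h0 : ContinuousAt l' 0 := hc'.continuousAt
  rw [Metric.continuousAt_iff] at h0
  obtain ⟨δ, hδ, h⟩ := h0 1 one_pos
  obtain ⟨π, hπ0, hπ⟩ := NormedField.exists_norm_lt k (lt_min hδ one_pos)
  have hπne : π ≠ 0 := norm_pos_iff.1 hπ0
  refine ⟨‖π‖⁻¹, fun a ha => ?_⟩
  have h1 : ‖π ^ p * a‖ < δ := by
    rw [norm_mul, norm_pow]
    calc ‖π‖ ^ p * ‖a‖ ≤ ‖π‖ ^ p * 1 := mul_le_mul_of_nonneg_left ha (pow_nonneg hπ0.le _)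
      _ = ‖π‖ ^ p := mul_one _
      _ ≤ ‖π‖ := pow_le_of_le_one hπ0.le (hπ.le.trans (min_le_right _ _)) hp.out.ne_zero
      _ < δ := hπ.trans_le (min_le_left _ _)
  have h2 : ‖l' (π ^ p * a)‖ < 1 := by
    have := @h (π ^ p * a) (by rw [dist_zero_right]; exact h1)
    rwa [map_zero, dist_zero_right] at this
  rw [hl', norm_mul] at h2
  rw [← mul_one ‖π‖⁻¹, ← div_eq_inv_mul, le_div_iff₀ hπ0, mul_comm]
  exact h2.le

theorem exists_iff (p : ℕ) [hp : Fact p.Prime] [CharP k p] (hn : 1 ≤ n) :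
    (∃ φ : Conv n k →+ Conv n k, (∀ r x, φ (r ^ p * x) = r * φ x) ∧ φ ≠ 0) ↔
      ∃ l : k →+ k, (∀ a b : k, l (a ^ p * b) = a * l b) ∧ Continuous l ∧ l ≠ 0 := by
  constructor
  · rintro ⟨φ, hφ, hφ0⟩
    obtain ⟨l, hl, hl1, B, hB⟩ := exists_bounded p (⟨0, hn⟩ : Fin n) φ hφ hφ0
    refine ⟨l, hl, continuous_of_bounded p l hl B hB, fun h0 => ?_⟩
    rw [h0] at hl1
    exact zero_ne_one hl1
  · rintro ⟨l, hl, hc, hl0⟩
    obtain ⟨l', hl', hl'1, B, hB⟩ := bounded_of_continuous p l hl hc hl0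
    refine ⟨Phi p l' hl' B hB, fun r x => Subtype.ext (PhiS_lin p l' hl' _ _), fun h0 => ?_⟩
    have h1 : cf 0 (Phi p l' hl' B hB (Mon (cst n (p - 1)) 1)) = 1 := by
      change coeff 0 (PhiS p l' (monomial (cst n (p - 1)) 1)) = 1
      rw [coeff_PhiS, smul_zero, zero_add, coeff_monomial_same, hl'1]
    rw [h0] at h1
    change cf 0 (0 : Conv n k) = 1 at h1
    rw [map_zero] at h1
    exact zero_ne_one h1

/-- There is a nonzero `R`-linear map `F_*R → R`. -/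
def HasNonzeroMap (R : Type*) [CommRing R] (p : ℕ) : Prop :=
  ∃ φ : R →+ R, (∀ r x : R, φ (r ^ p * x) = r * φ x) ∧ φ ≠ 0

/-- Split F-regularity of a domain `R`: for every `c ≠ 0` there are `e ≥ 1` and an `R`-linear map
`F^e_*R → R` with `F^e_*c ↦ 1`. -/
def SplitFRegular (R : Type*) [CommRing R] (p : ℕ) : Prop :=
  ∀ c : R, c ≠ 0 → ∃ e : ℕ, 1 ≤ e ∧
    ∃ ψ : R →+ R, (∀ r x : R, ψ (r ^ (p ^ e) * x) = r * ψ x) ∧ ψ c = 1

/-- There is a nonzero continuous `k`-linear map `k^{1/p} → k`. -/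
def HasContinuousMap (k : Type*) [NontriviallyNormedField k] (p : ℕ) : Prop :=
  ∃ l : k →+ k, (∀ a b : k, l (a ^ p * b) = a * l b) ∧ Continuous l ∧ l ≠ 0

end H907K
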