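import Pool.Agent.H907F.Reg

/-! A two-dimensional Noetherian local ring with maximal ideal generated by two elements is a
domain. -/

set_option linter.unusedSectionVars false

namespace H907F

open IsLocalRing

variable {A : Type*} [CommRing A] [IsNoetherianRing A] [IsLocalRing A]

lemma isDomain_of {x y : A} (hm : maximalIdeal A = Ideal.span {x, y})
    (hdim : ringKrullDim A = 2) : IsDomain A := by
  -- a chain q0 < q1 < m of primes
  have h1 := height_two hdim
  have h1' : ¬ (maximalIdeal A).height ≤ ((1 : ℕ) : ℕ∞) := by simpa using h1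
  rw [Ideal.height_le_iff] at h1'
  push Not at h1'
  obtain ⟨q1, hq1, hq1m, hq1h⟩ := h1'
  have hq1h' : q1.height ≠ 0 := by
    intro h0; rw [h0] at hq1h; exact absurd hq1h (by decide)
  obtain ⟨q0, hq0, hq01⟩ := Ideal.exists_minimalPrimes_le (I := (⊥ : Ideal A)) (J := q1) bot_le
  have hq0P : q0.IsPrime := hq0.1.1
  have hne : q0 ≠ q1 := by
    rintro rfl
    exact hq1h' (Ideal.height_eq_zero_iff.2 hq0)
  have hq1ne : q1 ≠ maximalIdeal A := hq1m.ne
  have hmem_not : ∀ q : Ideal A, q.IsPrime → q ≠ maximalIdeal A → x ∈ q → y ∉ q := by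
    intro q hq hqm hx hy
    refine hqm (le_antisymm (IsLocalRing.le_maximalIdeal hq.ne_top) ?_)
    rw [hm, Ideal.span_le]; rintro z hz
    rcases hz with rfl | rfl
    · exact hx
    · exact hy
  have hq0m : q0 ≠ maximalIdeal A := by
    rintro rfl
    exact hq1ne (le_antisymm hq1m.le hq01)
  have hx0 : x ∉ q0 := by
    intro hx
    have e0 := prime_eq_span hm q0 hx (hmem_not q0 hq0P hq0m hx)
    have e1 := prime_eq_span hm q1 (hq01 hx) (hmem_not q1 hq1 hq1ne (hq01 hx))
    exact hne (e0.trans e1.symm)
  -- q0 ≤ (x)
  have hle : q0 ≤ Ideal.span {x} := by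
    have hsup : q0 ⊔ Ideal.span {x} ≤ maximalIdeal A :=
      sup_le (IsLocalRing.le_maximalIdeal hq0P.ne_top) (by
        rw [hm]; exact Ideal.span_mono (by simp))
    obtain ⟨q, hq, hqm⟩ := Ideal.exists_minimalPrimes_le hsup
    have hqP : q.IsPrime := hq.1.1
    have hxq : x ∈ q := hq.1.2 (Ideal.mem_sup_right (Ideal.mem_span_singleton_self x))
    have hq0q : q0 ≤ q := le_sup_left.trans hq.1.2
    by_cases hqe : q = maximalIdeal A
    · exfalso
      -- pass to B = A / q0
      have hB : IsDomain (A ⧸ q0) := Ideal.Quotient.isDomain _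
      have hL : IsLocalRing (A ⧸ q0) :=
        IsLocalRing.of_surjective' (Ideal.Quotient.mk _) Ideal.Quotient.mk_surjective
      have hmin : maximalIdeal (A ⧸ q0) ∈
          (Ideal.span {Ideal.Quotient.mk q0 x}).minimalPrimes := by
        refine ⟨⟨(maximalIdeal.isMaximal _).isPrime, ?_⟩, ?_⟩
        · refine IsLocalRing.le_maximalIdeal ?_
          rw [Ne, Ideal.span_singleton_eq_top]
          intro hu
          have hloc : IsLocalHom (Ideal.Quotient.mk q0) :=
            IsLocalHom.of_surjective _ Ideal.Quotient.mk_surjective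
          have hxu := isUnit_of_map_unit _ _ hu
          have hxm : x ∈ maximalIdeal A := by rw [hm]; exact Ideal.subset_span (by simp)
          exact (mem_maximalIdeal x).1 hxm hxu
        · rintro r ⟨hrP, hrx⟩ _
          have hc : q0 ⊔ Ideal.span {x} ≤ r.comap (Ideal.Quotient.mk q0) := by
            refine sup_le ?_ ?_
            · intro z hz
              rw [Ideal.mem_comap, Ideal.Quotient.eq_zero_iff_mem.2 hz]; exact r.zero_mem
            · rw [Ideal.span_singleton_le_iff_mem, Ideal.mem_comap]
              exact hrx (Ideal.mem_span_singleton_self _)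
          have hcP : (r.comap (Ideal.Quotient.mk q0)).IsPrime := Ideal.IsPrime.comap _
          have hge : maximalIdeal A ≤ r.comap (Ideal.Quotient.mk q0) := by
            rw [← hqe]
            refine hq.2 ⟨hcP, hc⟩ ?_
            rw [hqe]
            exact IsLocalRing.le_maximalIdeal hcP.ne_top
          intro z hz
          obtain ⟨z, rfl⟩ := Ideal.Quotient.mk_surjective z
          have hzm : z ∈ maximalIdeal A := by
            rw [mem_maximalIdeal, mem_nonunits_iff] at hz ⊢
            exact fun hu => hz (hu.map _)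
          exact hge hzm
      have hh := Ideal.height_le_one_of_isPrincipal_of_mem_minimalPrimes
        (Ideal.span {Ideal.Quotient.mk q0 x}) _ hmin
      have hh' : (maximalIdeal (A ⧸ q0)).height ≤ ((1 : ℕ) : ℕ∞) := by simpa using hh
      rw [Ideal.height_le_iff] at hh'
      have hq1P : (q1.map (Ideal.Quotient.mk q0)).IsPrime :=
        Ideal.map_isPrime_of_surjective Ideal.Quotient.mk_surjective (by
          rw [Ideal.mk_ker]; exact hq01)
      have hcm : (q1.map (Ideal.Quotient.mk q0)).comap (Ideal.Quotient.mk q0) = q1 := by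
        rw [Ideal.comap_map_of_surjective _ Ideal.Quotient.mk_surjective,
          ← RingHom.ker_eq_comap_bot, Ideal.mk_ker, sup_eq_left]
        exact hq01
      have hlt : q1.map (Ideal.Quotient.mk q0) < maximalIdeal (A ⧸ q0) := by
        refine lt_of_le_of_ne (IsLocalRing.le_maximalIdeal hq1P.ne_top) ?_
        intro he
        have hloc : IsLocalHom (Ideal.Quotient.mk q0) :=
          IsLocalHom.of_surjective _ Ideal.Quotient.mk_surjective
        have : (maximalIdeal (A ⧸ q0)).comap (Ideal.Quotient.mk q0) = maximalIdeal A := by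
          refine le_antisymm (IsLocalRing.le_maximalIdeal ?_) ?_
          · exact (Ideal.IsPrime.comap (Ideal.Quotient.mk q0)
              (hK := (maximalIdeal.isMaximal _).isPrime)).ne_top
          · intro z hz
            rw [Ideal.mem_comap, mem_maximalIdeal, mem_nonunits_iff]
            intro hu
            exact (mem_maximalIdeal z).1 hz (isUnit_of_map_unit _ _ hu)
        rw [← he, hcm] at this
        exact hq1ne this
      have hlt1 := hh' _ hq1P hlt
      have hz0 : (q1.map (Ideal.Quotient.mk q0)).height = 0 := by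
        have : (q1.map (Ideal.Quotient.mk q0)).height < 1 := by simpa using hlt1
        exact Order.lt_one_iff.1 this
      rw [Ideal.height_eq_zero_iff_eq_bot] at hz0
      rw [hz0, ← RingHom.ker_eq_comap_bot, Ideal.mk_ker] at hcm
      exact hne hcm
    · have := prime_eq_span hm q hxq (hmem_not q hqP hqe hxq)
      rw [← this]; exact hq0q
  -- q0 = x q0 = 0
  have hbot : q0 = ⊥ := by
    refine Submodule.eq_bot_of_le_smul_of_le_jacobson_bot (maximalIdeal A) q0
      (IsNoetherian.noetherian _) ?_ jac
    intro z hz
    obtain ⟨t, ht⟩ := Ideal.mem_span_singleton.1 (hle hz)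
    rw [ht] at hz ⊢
    have htq : t ∈ q0 := (hq0P.mem_or_mem hz).resolve_left hx0
    exact Submodule.smul_mem_smul (by rw [hm]; exact Ideal.subset_span (by simp)) htq
  rw [hbot] at hq0P
  have hnz : NoZeroDivisors A := ⟨fun {a b} h => by
    have h1 : a * b ∈ (⊥ : Ideal A) := by rw [Ideal.mem_bot]; exact h
    rcases hq0P.mem_or_mem h1 with h2 | h2
    · exact Or.inl (by simpa using h2)
    · exact Or.inr (by simpa using h2)⟩
  exact NoZeroDivisors.to_isDomain A

end H907F
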