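import Pool.Agent.H907F.Reg

/-! The socle trick: from a `p⁻¹`-linear map taking the value `1` at `(xy)^(p-1)` to split
F-regularity. -/

set_option linter.unusedSectionVars false

namespace H907F

open IsLocalRing

variable {A : Type*} [CommRing A] [IsDomain A] [IsNoetherianRing A] [IsLocalRing A]

lemma colon {x y : A} (hx : Prime x) (hy : Prime y) (hxy : ¬ x ∣ y) (hyx : ¬ y ∣ x)
    (hm : maximalIdeal A = Ideal.span {x, y}) (n : ℕ) (z : A)
    (h1 : x * z ∈ Ideal.span {x ^ (n + 1), y ^ (n + 1)})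
    (h2 : y * z ∈ Ideal.span {x ^ (n + 1), y ^ (n + 1)})
    (h3 : z ∉ Ideal.span {x ^ (n + 1), y ^ (n + 1)}) :
    ∃ u a b : A, IsUnit u ∧ z = u * (x * y) ^ n + a * x ^ (n + 1) + b * y ^ (n + 1) := by
  rw [Ideal.mem_span_pair] at h1 h2
  obtain ⟨a1, b1, e1⟩ := h1
  obtain ⟨a2, b2, e2⟩ := h2
  -- x | b1
  have hb1 : x ∣ b1 := by
    have : x ∣ b1 * y ^ (n + 1) := ⟨z - a1 * x ^ n, by rw [mul_sub, ← e1]; ring⟩
    rcases hx.dvd_or_dvd this with h | h
    · exact h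
    · exact absurd (hx.dvd_of_dvd_pow h) hxy
  obtain ⟨b', rfl⟩ := hb1
  have ez : z = a1 * x ^ n + b' * y ^ (n + 1) := by
    apply mul_left_cancel₀ hx.ne_zero
    rw [← e1]; ring
  have e3 : x ^ n * (y * a1 - a2 * x) = (b2 - b' * y) * y ^ (n + 1) := by
    rw [ez] at e2
    linear_combination (-1 : A) * e2
  have hdiv : x ^ n ∣ b2 - b' * y := by
    refine hx.pow_dvd_of_dvd_mul_right n (b := y ^ (n + 1)) ?_ ⟨_, e3.symm⟩
    exact fun h => hxy (hx.dvd_of_dvd_pow h)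
  obtain ⟨b4, hb4⟩ := hdiv
  have e4 : y * a1 - a2 * x = b4 * y ^ (n + 1) := by
    apply mul_left_cancel₀ (pow_ne_zero n hx.ne_zero)
    rw [e3, hb4]; ring
  have hdx : x ∣ a1 - b4 * y ^ n := by
    have : x ∣ y * (a1 - b4 * y ^ n) := ⟨a2, by linear_combination e4⟩
    exact (hx.dvd_or_dvd this).resolve_left hxy
  obtain ⟨a5, ha5⟩ := hdx
  refine ⟨b4, a5, b', ?_, ?_⟩
  · by_contra hu
    have hb4m : b4 ∈ maximalIdeal A := (mem_maximalIdeal _).2 hu
    rw [hm, Ideal.mem_span_pair] at hb4m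
    obtain ⟨s, t, hst⟩ := hb4m
    apply h3
    rw [Ideal.mem_span_pair]
    refine ⟨s * y ^ n + a5, t * x ^ n + b', ?_⟩
    rw [ez]
    linear_combination (-(x ^ n)) * ha5 + x ^ n * y ^ n * hst
  · rw [ez]
    linear_combination x ^ n * ha5

lemma exists_socle {x y : A} (hx : Prime x) (hy : Prime y) (hxy : ¬ x ∣ y) (hyx : ¬ y ∣ x)
    (hm : maximalIdeal A = Ideal.span {x, y}) (n : ℕ) (c : A)
    (hc : c ∉ Ideal.span {x ^ (n + 1), y ^ (n + 1)}) :
    ∃ r u a b : A, IsUnit u ∧ r * c = u * (x * y) ^ n + a * x ^ (n + 1) + b * y ^ (n + 1) := by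
  classical
  set J := Ideal.span {x ^ (n + 1), y ^ (n + 1)} with hJ
  have hxJ : x ^ (n + 1) ∈ J := Ideal.subset_span (by simp)
  have hyJ : y ^ (n + 1) ∈ J := Ideal.subset_span (by simp)
  have ex : ∃ i, x ^ i * c ∈ J := ⟨n + 1, J.mul_mem_right _ hxJ⟩
  have hi0 : Nat.find ex ≠ 0 := by
    intro h
    have := Nat.find_spec ex
    rw [h, pow_zero, one_mul] at this
    exact hc this
  obtain ⟨i, hi⟩ := Nat.exists_eq_succ_of_ne_zero hi0
  have hi1 : x ^ (i + 1) * c ∈ J := by have := Nat.find_spec ex; rwa [hi] at this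
  have hi2 : x ^ i * c ∉ J := Nat.find_min ex (by omega)
  have ey : ∃ j, y ^ j * (x ^ i * c) ∈ J := ⟨n + 1, J.mul_mem_right _ hyJ⟩
  have hj0 : Nat.find ey ≠ 0 := by
    intro h
    have := Nat.find_spec ey
    rw [h, pow_zero, one_mul] at this
    exact hi2 this
  obtain ⟨j, hj⟩ := Nat.exists_eq_succ_of_ne_zero hj0
  have hj1 : y ^ (j + 1) * (x ^ i * c) ∈ J := by have := Nat.find_spec ey; rwa [hj] at this
  have hj2 : y ^ j * (x ^ i * c) ∉ J := Nat.find_min ey (by omega)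
  obtain ⟨u, a, b, hu, e⟩ := colon hx hy hxy hyx hm n (y ^ j * (x ^ i * c)) (by
    have : x * (y ^ j * (x ^ i * c)) = y ^ j * (x ^ (i + 1) * c) := by ring
    rw [this]; exact J.mul_mem_left _ hi1) (by
    have : y * (y ^ j * (x ^ i * c)) = y ^ (j + 1) * (x ^ i * c) := by ring
    rw [this]; exact hj1) hj2
  exact ⟨y ^ j * x ^ i, u, a, b, hu, by rw [← e]; ring⟩

variable (p : ℕ)

lemma iter_lin (κ : A →+ A) (hκ : ∀ r z : A, κ (r ^ p * z) = r * κ z) (e : ℕ) :
    ∃ K : A →+ A, (∀ r z : A, K (r ^ (p ^ e) * z) = r * K z) ∧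
      ∀ w : A, κ (w ^ (p - 1)) = 1 → 0 < p → K (w ^ (p ^ e - 1)) = 1 := by
  induction e with
  | zero => exact ⟨AddMonoidHom.id A, fun r z => by simp, fun w _ _ => by simp⟩
  | succ e ih =>
    obtain ⟨K, hK, hK1⟩ := ih
    refine ⟨K.comp κ, fun r z => ?_, fun w hw hp => ?_⟩
    · simp only [AddMonoidHom.comp_apply]
      rw [pow_succ, pow_mul, hκ, hK]
    · simp only [AddMonoidHom.comp_apply]
      have h1 : p ^ (e + 1) - 1 = (p ^ e - 1) * p + (p - 1) := by
        have : 1 ≤ p ^ e := Nat.one_le_pow _ _ hp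
        obtain ⟨t, ht⟩ := Nat.exists_eq_add_of_le this
        rw [pow_succ, ht]
        have : (1 + t) * p = p + t * p := by ring
        rw [this]
        have : 1 + t - 1 = t := by omega
        rw [this]; omega
      rw [h1, pow_add, pow_mul, hκ, hw, mul_one, hK1 w hw hp]

theorem split_of_one {x y : A} (hx : Prime x) (hy : Prime y) (hxy : ¬ x ∣ y) (hyx : ¬ y ∣ x)
    (hm : maximalIdeal A = Ideal.span {x, y}) (hp : 2 ≤ p) (κ : A →+ A)
    (hκ : ∀ r z : A, κ (r ^ p * z) = r * κ z) (h1 : κ ((x * y) ^ (p - 1)) = 1)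
    (c : A) (hc : c ≠ 0) :
    ∃ e : ℕ, 1 ≤ e ∧ ∃ ψ : A →+ A, (∀ r z : A, ψ (r ^ (p ^ e) * z) = r * ψ z) ∧ ψ c = 1 := by
  -- Krull intersection
  obtain ⟨N, hN⟩ : ∃ N : ℕ, c ∉ maximalIdeal A ^ N := by
    by_contra hcon
    push Not at hcon
    have hk := Ideal.iInf_pow_eq_bot_of_isLocalRing (maximalIdeal A)
      (maximalIdeal.isMaximal A).ne_top
    have : c ∈ (⨅ i : ℕ, maximalIdeal A ^ i) := by
      rw [Submodule.mem_iInf]; exact hcon
    rw [hk] at this
    exact hc (by simpa using this)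
  set e := N + 1 with he
  have hq : N ≤ p ^ e := by
    calc N ≤ e := by omega
      _ ≤ p ^ e := (Nat.lt_pow_self (by omega)).le
  have hq1 : 1 ≤ p ^ e := Nat.one_le_pow _ _ (by omega)
  obtain ⟨n, hn⟩ := Nat.exists_eq_add_of_le' hq1
  have hcJ : c ∉ Ideal.span {x ^ (n + 1), y ^ (n + 1)} := by
    intro h
    apply hN
    refine Ideal.pow_le_pow_right hq ?_
    have hle : Ideal.span {x ^ (n + 1), y ^ (n + 1)} ≤ maximalIdeal A ^ (p ^ e) := by
      rw [hn, Ideal.span_le]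
      rintro z hz
      rcases hz with rfl | rfl
      · exact Ideal.pow_mem_pow (by rw [hm]; exact Ideal.subset_span (by simp)) _
      · exact Ideal.pow_mem_pow (by rw [hm]; exact Ideal.subset_span (by simp)) _
    exact hle h
  obtain ⟨r, u, a, b, hu, hr⟩ := exists_socle hx hy hxy hyx hm n c hcJ
  obtain ⟨K, hK, hK1⟩ := iter_lin p κ hκ e
  have hK1' := hK1 (x * y) h1 (by omega)
  have hn' : p ^ e - 1 = n := by omega
  rw [hn'] at hK1'
  obtain ⟨u, rfl⟩ := hu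
  set w : A := K ((↑u⁻¹ : A) * (r * c)) with hw
  have hwe : w = 1 + x * K ((↑u⁻¹ : A) * a) + y * K ((↑u⁻¹ : A) * b) := by
    have e1 : (↑u⁻¹ : A) * (r * c) = (x * y) ^ n + x ^ (p ^ e) * ((↑u⁻¹ : A) * a) +
        y ^ (p ^ e) * ((↑u⁻¹ : A) * b) := by
      rw [hr, hn]
      have := u.inv_mul
      linear_combination ((x * y) ^ n) * this
    rw [hw, e1, map_add, map_add, hK, hK, hK1']
  have hwu : IsUnit w := by
    have : w ∉ maximalIdeal A := by
      intro hmem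
      have h1m : (1 : A) ∈ maximalIdeal A := by
        have : (1 : A) = w - (x * K ((↑u⁻¹ : A) * a) + y * K ((↑u⁻¹ : A) * b)) := by
          rw [hwe]; ring
        rw [this]
        refine (maximalIdeal A).sub_mem hmem ?_
        rw [hm]
        exact (Ideal.span {x, y}).add_mem
          (Ideal.mul_mem_right _ _ (Ideal.subset_span (by simp)))
          (Ideal.mul_mem_right _ _ (Ideal.subset_span (by simp)))
      exact (Ideal.ne_top_iff_one _).1 (maximalIdeal.isMaximal A).ne_top h1m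
    exact not_not.1 fun h => this ((mem_maximalIdeal _).2 h)
  obtain ⟨w', hw'⟩ := hwu
  refine ⟨e, by omega, (AddMonoidHom.mulLeft (↑w'⁻¹ : A)).comp
    (K.comp (AddMonoidHom.mulLeft ((↑u⁻¹ : A) * r))), fun s z => ?_, ?_⟩
  · simp only [AddMonoidHom.comp_apply, AddMonoidHom.coe_mulLeft]
    have : (↑u⁻¹ : A) * r * (s ^ (p ^ e) * z) = s ^ (p ^ e) * ((↑u⁻¹ : A) * r * z) := by ring
    rw [this, hK]; ring
  · simp only [AddMonoidHom.comp_apply, AddMonoidHom.coe_mulLeft]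
    rw [mul_assoc (↑u⁻¹ : A) r c, ← hw, ← hw', Units.inv_mul]

end H907F
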