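import Pool.Agent.H907F.Abs2
import Pool.Agent.H907F.Socle

/-! The Frobenius module and the main theorem in dimension two. -/

set_option linter.unusedSectionVars false

namespace H907F

open IsLocalRing Module

/-- `R` as a module over itself through the Frobenius map. -/
def Fs (R : Type*) (_p : ℕ) : Type _ := R

section
variable (R : Type*) [CommRing R] (p : ℕ) [hp : Fact p.Prime] [CharP R p]

instance : AddCommGroup (Fs R p) := inferInstanceAs (AddCommGroup R)

instance : Module R (Fs R p) := Module.compHom R (frobenius R p)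

variable {R p}

/-- the identity -/
def toFs (r : R) : Fs R p := r

/-- the identity -/
def ofFs (z : Fs R p) : R := z

lemma smul_def (a r : R) : (a • (toFs r : Fs R p)) = toFs (a ^ p * r) := rfl

/-- functional from an additive map -/
def toFun' (κ : R →+ R) (hκ : ∀ r z : R, κ (r ^ p * z) = r * κ z) : Fs R p →ₗ[R] R :=
  { toFun := fun z => κ z
    map_add' := fun a b => κ.map_add a b
    map_smul' := fun a b => hκ a b }

@[simp] lemma toFun'_apply (κ : R →+ R) (hκ : ∀ r z : R, κ (r ^ p * z) = r * κ z) (z : R) :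
    toFun' κ hκ (toFs z : Fs R p) = κ z := rfl

lemma frob_T0 [IsDomain R] (φ : R →+ R) (hφ : ∀ r z : R, φ (r ^ p * z) = r * φ z) (hφ0 : φ ≠ 0)
    (v : Fs R p) (hv : v ≠ 0) : ∃ κ : Fs R p →ₗ[R] R, κ v ≠ 0 := by
  obtain ⟨s, hs⟩ : ∃ s, φ s ≠ 0 := by
    by_contra h
    push Not at h
    exact hφ0 (AddMonoidHom.ext h)
  let v' : R := v
  have hv' : v' ≠ 0 := hv
  refine ⟨toFun' (φ.comp (AddMonoidHom.mulLeft (s * v' ^ (p - 1)))) (fun r z => ?_), ?_⟩
  · simp only [AddMonoidHom.comp_apply, AddMonoidHom.coe_mulLeft]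
    rw [← hφ]; congr 1; ring
  · change φ (s * v' ^ (p - 1) * v') ≠ 0
    have : s * v' ^ (p - 1) * v' = v' ^ p * s := by
      have h1 : v' ^ p = v' ^ (p - 1) * v' := by
        rw [← pow_succ, Nat.sub_add_cancel hp.out.one_le]
      rw [h1]; ring
    rw [this, hφ]
    exact mul_ne_zero hv' hs

/-- divide a `p⁻¹`-linear map with values in `fR` by `f`. -/
lemma exists_div [IsDomain R] {f : R} (hf : f ≠ 0) (κ : R →+ R)
    (hκ : ∀ r z : R, κ (r ^ p * z) = r * κ z) (h : ∀ z, f ∣ κ z) :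
    ∃ κ' : R →+ R, (∀ r z : R, κ' (r ^ p * z) = r * κ' z) ∧ ∀ z, κ z = f * κ' z := by
  choose g hg using h
  refine ⟨{ toFun := g, map_zero' := ?_, map_add' := ?_ }, ?_, hg⟩
  · apply mul_left_cancel₀ hf
    rw [← hg, map_zero, mul_zero]
  · intro a b
    apply mul_left_cancel₀ hf
    rw [mul_add, ← hg, ← hg, ← hg, map_add]
  · intro r z
    apply mul_left_cancel₀ hf
    change f * g (r ^ p * z) = f * (r * g z)
    rw [← hg, hκ, hg z]; ring

lemma frob_T1 [IsDomain R] [IsNoetherianRing R] [IsLocalRing R] (φ : R →+ R)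
    (hφ : ∀ r z : R, φ (r ^ p * z) = r * φ z) (hφ0 : φ ≠ 0)
    (f : R) (hf : Prime f) (v : Fs R p) (hv : ∀ u : Fs R p, v ≠ f • u) :
    ∃ κ : Fs R p →ₗ[R] R, ¬ f ∣ κ v := by
  classical
  have hp1 := hp.out.one_le
  -- the ideal J
  let J : Ideal R :=
    { carrier := {z | ∀ κ : R →+ R, (∀ r z : R, κ (r ^ p * z) = r * κ z) → f ∣ κ z}
      zero_mem' := fun κ _ => by simp
      add_mem' := fun {a b} ha hb κ hκ => by rw [map_add]; exact dvd_add (ha κ hκ) (hb κ hκ)
      smul_mem' := by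
        intro c z hz κ hκ
        exact hz (κ.comp (AddMonoidHom.mulLeft c)) (fun r z => by
          simp only [AddMonoidHom.comp_apply, AddMonoidHom.coe_mulLeft]
          rw [← hκ]; congr 1; ring) }
  have hJ : ∀ z, z ∈ J ↔ ∀ κ : R →+ R, (∀ r z : R, κ (r ^ p * z) = r * κ z) → f ∣ κ z :=
    fun z => Iff.rfl
  -- 1 ∉ J
  have h1J : (1 : R) ∉ J := by
    intro h1
    have hall : ∀ κ : R →+ R, (∀ r z : R, κ (r ^ p * z) = r * κ z) → ∀ z, f ∣ κ z := by
      intro κ hκ z
      have : z ∈ J := by have := J.mul_mem_left z h1; rwa [mul_one] at this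
      exact (hJ z).1 this κ hκ
    have hpow : ∀ n : ℕ, ∀ κ : R →+ R, (∀ r z : R, κ (r ^ p * z) = r * κ z) → ∀ z, f ^ n ∣ κ z := by
      intro n
      induction n with
      | zero => intro κ _ z; simp
      | succ n ih =>
        intro κ hκ z
        obtain ⟨κ', hκ', h⟩ := exists_div hf.ne_zero κ hκ (hall κ hκ)
        rw [h, pow_succ']
        exact mul_dvd_mul dvd_rfl (ih κ' hκ' z)
    apply hφ0
    ext z
    have hk := Ideal.iInf_pow_eq_bot_of_isLocalRing (Ideal.span {f}) (by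
      rw [Ne, Ideal.span_singleton_eq_top]; exact hf.not_isUnit)
    have : φ z ∈ (⨅ i : ℕ, Ideal.span {f} ^ i) := by
      rw [Submodule.mem_iInf]
      intro i
      rw [Ideal.span_singleton_pow, Ideal.mem_span_singleton]
      exact hpow i φ hφ z
    rw [hk] at this
    simpa using this
  -- no power f^i with i < p lies in J
  have hfi : ∀ i : ℕ, i < p → f ^ i ∉ J := by
    intro i
    induction i with
    | zero => intro _; simpa using h1J
    | succ i ih =>
      intro hip hmem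
      apply ih (by omega)
      rw [hJ]
      intro κ hκ
      -- κ' = f⁻¹ κ(f^(i+1) ·)
      let κ1 : R →+ R := κ.comp (AddMonoidHom.mulLeft (f ^ (i + 1)))
      have hκ1 : ∀ r z : R, κ1 (r ^ p * z) = r * κ1 z := by
        intro r z
        simp only [κ1, AddMonoidHom.comp_apply, AddMonoidHom.coe_mulLeft]
        rw [← hκ]; congr 1; ring
      have hdv : ∀ z, f ∣ κ1 z := by
        intro z
        have : f ^ (i + 1) * z ∈ J := J.mul_mem_right _ hmem
        exact (hJ _).1 this κ hκ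
      obtain ⟨κ2, hκ2, h2⟩ := exists_div hf.ne_zero κ1 hκ1 hdv
      have h3 : ∀ z, f * f ∣ κ (f ^ (i + 1) * (f ^ (i + 1) * z)) := by
        intro z
        have h4 : f ∣ κ2 (f ^ (i + 1) * z) := by
          have : f ^ (i + 1) * z ∈ J := J.mul_mem_right _ hmem
          exact (hJ _).1 this κ2 hκ2
        have h5 := h2 (f ^ (i + 1) * z)
        change κ (f ^ (i + 1) * (f ^ (i + 1) * z)) = _ at h5
        rw [h5]
        exact mul_dvd_mul dvd_rfl h4
      have h6 := h3 (f ^ (p - 1 - (i + 1)))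
      have h7 : f ^ (i + 1) * (f ^ (i + 1) * f ^ (p - 1 - (i + 1))) = f ^ p * f ^ i := by
        rw [← pow_add, ← pow_add, ← pow_add]; congr 1; omega
      rw [h7, hκ] at h6
      exact (mul_dvd_mul_iff_left hf.ne_zero).1 h6
  -- now v
  by_contra hcon
  push Not at hcon
  let v' : R := v
  have hvJ : v' ∈ J := by
    rw [hJ]; intro κ hκ
    exact hcon (toFun' κ hκ)
  have hnd : ¬ f ^ p ∣ v' := by
    rintro ⟨u, hu⟩
    exact hv (toFs u) hu
  -- largest power dividing
  have hex : ∃ i, ¬ f ^ (i + 1) ∣ v' := ⟨p - 1, by rwa [Nat.sub_add_cancel hp1]⟩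
  set i := Nat.find hex with hi
  have hi1 : ¬ f ^ (i + 1) ∣ v' := Nat.find_spec hex
  have hi2 : f ^ i ∣ v' := by
    rcases Nat.eq_zero_or_pos i with h0 | h0
    · rw [h0]; simp
    · have := Nat.find_min hex (m := i - 1) (by omega)
      rw [not_not, Nat.sub_add_cancel h0] at this
      exact this
  have hip : i < p := by
    by_contra hge
    exact hnd ((pow_dvd_pow f (not_lt.1 hge)).trans hi2)
  obtain ⟨w, hw⟩ := hi2
  have hfw : ¬ f ∣ w := by
    rintro ⟨t, rfl⟩
    exact hi1 ⟨t, by rw [hw, pow_succ]; ring⟩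
  apply hfi (p - 1) (by omega)
  rw [hJ]
  intro κ hκ
  have h8 : f ^ (p - 1) * w ∈ J := by
    have : f ^ (p - 1) * w = f ^ (p - 1 - i) * v' := by
      rw [hw, ← mul_assoc, ← pow_add]; congr 2; omega
    rw [this]; exact J.mul_mem_left _ hvJ
  have h9 : w ^ p * f ^ (p - 1) ∈ J := by
    have : w ^ p * f ^ (p - 1) = w ^ (p - 1) * (f ^ (p - 1) * w) := by
      have h1 : w ^ p = w ^ (p - 1) * w := by rw [← pow_succ, Nat.sub_add_cancel hp1]
      rw [h1]; ring
    rw [this]; exact J.mul_mem_left _ h8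
  have h10 := (hJ _).1 h9 κ hκ
  rw [hκ] at h10
  exact (hf.dvd_or_dvd h10).resolve_left hfw

lemma frob_free [IsDomain R] [IsNoetherianRing R] [IsLocalRing R] {x y : R}
    (hm : maximalIdeal R = Ideal.span {x, y}) (hdim : ringKrullDim R = 2)
    (φ : R →+ R) (hφ : ∀ r z : R, φ (r ^ p * z) = r * φ z) (hφ0 : φ ≠ 0)
    (N : Submodule R (Fs R p)) (hfg : N.FG)
    (hsat : ∀ (a : R) (v : Fs R p), a ≠ 0 → a • v ∈ N → v ∈ N) : Module.Free R N := by
  have hx := prime_x hm hdim
  have hfin : Module.Finite R N := Module.Finite.iff_fg.2 hfg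
  have hmem : x ∈ (⊥ : Ideal R).jacobson := jac (by rw [hm]; exact Ideal.subset_span (by simp))
  have hreg : IsSMulRegular N x := by
    intro u w huw
    have h1 : x • ((u : Fs R p) - w) = 0 := by
      have h2 : x • (u : Fs R p) = x • (w : Fs R p) := congrArg Subtype.val huw
      rw [smul_sub, h2, sub_self]
    have h3 := tf (frob_T0 φ hφ hφ0) hx.ne_zero h1
    exact Subtype.ext (sub_eq_zero.1 h3)
  have hfp : Module.FinitePresentation R N := Module.finitePresentation_of_finite R N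
  rw [← Module.free_quotSMulTop_iff_free R N hmem hreg]
  obtain ⟨hD, hpid⟩ := quot_pid hm hdim
  have hfin2 : Module.Finite (R ⧸ Ideal.span {x}) (QuotSMulTop x N) :=
    Module.Finite.of_restrictScalars_finite R (R ⧸ Ideal.span {x}) (QuotSMulTop x N)
  have htf : Module.IsTorsionFree (R ⧸ Ideal.span {x}) (QuotSMulTop x N) := by
    refine ⟨fun c hc => ?_⟩
    have hc0 : c ≠ 0 := hc.ne_zero
    obtain ⟨c, rfl⟩ := Ideal.Quotient.mk_surjective c
    have hxc : ¬ x ∣ c := fun h => hc0 (Ideal.Quotient.eq_zero_iff_mem.2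
      (Ideal.mem_span_singleton.2 h))
    have key : ∀ u : QuotSMulTop x N, Ideal.Quotient.mk (Ideal.span {x}) c • u = 0 → u = 0 := by
      intro u hu
      obtain ⟨u, rfl⟩ := Submodule.Quotient.mk_surjective _ u
      have hu2 : (Submodule.Quotient.mk (c • u) : QuotSMulTop x N) = 0 := hu
      rw [Submodule.Quotient.mk_eq_zero] at hu2 ⊢
      rw [Submodule.mem_smul_pointwise_iff_exists] at hu2 ⊢
      obtain ⟨w, _, hw⟩ := hu2
      have hw' : x • (w : Fs R p) = c • (u : Fs R p) := congrArg Subtype.val hw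
      have : ∃ t : Fs R p, (u : Fs R p) = x • t := by
        by_contra hcon
        push Not at hcon
        obtain ⟨κ, hκ⟩ := frob_T1 φ hφ hφ0 x hx (u : Fs R p) hcon
        apply hκ
        have h1 : c * κ u = x * κ w := by
          rw [← smul_eq_mul, ← map_smul, ← hw', map_smul, smul_eq_mul]
        exact (hx.dvd_or_dvd ⟨_, h1⟩).resolve_left hxc
      obtain ⟨t, ht⟩ := this
      have htN : t ∈ N := hsat x t hx.ne_zero (by rw [← ht]; exact u.2)
      exact ⟨⟨t, htN⟩, trivial, Subtype.ext ht.symm⟩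
    intro u w huw
    have h0 : Ideal.Quotient.mk (Ideal.span {x}) c • (u - w) = 0 := by
      rw [smul_sub, sub_eq_zero]; exact huw
    exact sub_eq_zero.1 (key _ h0)
  infer_instance

lemma not_mem_frob [IsDomain R] [IsNoetherianRing R] [IsLocalRing R] {x y : R}
    (hm : maximalIdeal R = Ideal.span {x, y}) (hdim : ringKrullDim R = 2) :
    (toFs ((x * y) ^ (p - 1)) : Fs R p) ∉ (maximalIdeal R) • (⊤ : Submodule R (Fs R p)) := by
  have hp1 := hp.out.one_le
  have hx := prime_x hm hdim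
  have hxy := not_dvd hm hdim
  have hyx := not_dvd (swap hm) hdim
  intro h
  have h1 : ∀ z : Fs R p, z ∈ (maximalIdeal R) • (⊤ : Submodule R (Fs R p)) →
      ofFs z ∈ Ideal.span {x ^ p, y ^ p} := by
    intro z hz
    induction hz using Submodule.smul_induction_on' with
    | smul a ha u _ =>
      have key : ∀ u' : R, a ^ p * u' ∈ Ideal.span {x ^ p, y ^ p} := by
        intro u'
        rw [hm, Ideal.mem_span_pair] at ha
        obtain ⟨s, t, hst⟩ := ha
        have : a ^ p = s ^ p * x ^ p + t ^ p * y ^ p := by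
          rw [← hst, ← frobenius_def, map_add, map_mul, map_mul]
          simp only [frobenius_def]
        rw [this, Ideal.mem_span_pair]
        exact ⟨s ^ p * u', t ^ p * u', by ring⟩
      exact key (ofFs u)
    | add a _ b _ ha hb => exact Ideal.add_mem _ ha hb
  have h2 := h1 _ h
  change (x * y) ^ (p - 1) ∈ _ at h2
  rw [Ideal.mem_span_pair] at h2
  obtain ⟨a, b, hab⟩ := h2
  obtain ⟨n, hn⟩ := Nat.exists_eq_add_of_le' hp1
  have hn' : p - 1 = n := by omega
  rw [hn', hn] at hab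
  have h3 : b * y ^ (n + 1) = x ^ n * (y ^ n - a * x) := by
    linear_combination hab
  have h4 : x ^ n ∣ b := hx.pow_dvd_of_dvd_mul_right n (b := y ^ (n + 1))
    (fun h => hxy (hx.dvd_of_dvd_pow h)) ⟨_, h3⟩
  obtain ⟨b', rfl⟩ := h4
  have h5 : b' * y ^ (n + 1) = y ^ n - a * x := by
    apply mul_left_cancel₀ (pow_ne_zero n hx.ne_zero)
    rw [← h3]; ring
  have h6 : x ∣ y ^ n * (1 - b' * y) := ⟨a, by linear_combination (-1 : R) * h5⟩
  rcases hx.dvd_or_dvd h6 with h7 | h7
  · exact hxy (hx.dvd_of_dvd_pow h7)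
  · obtain ⟨t, ht⟩ := h7
    have : (1 : R) ∈ maximalIdeal R := by
      rw [hm, Ideal.mem_span_pair]
      exact ⟨t, b', by linear_combination (-1 : R) * ht⟩
    exact (Ideal.ne_top_iff_one _).1 (maximalIdeal.isMaximal R).ne_top this

/-- Main theorem (domain form). -/
theorem main_dim_two [IsDomain R] [IsNoetherianRing R] [IsLocalRing R] {x y : R}
    (hm : maximalIdeal R = Ideal.span {x, y}) (hdim : ringKrullDim R = 2)
    (φ : R →+ R) (hφ : ∀ r z : R, φ (r ^ p * z) = r * φ z) (hφ0 : φ ≠ 0)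
    (g : ℕ → R) (hg : ∀ r : R, ∃ (n : ℕ) (a : ℕ → R), r = ∑ i ∈ Finset.range n, a i ^ p * g i)
    (c : R) (hc : c ≠ 0) :
    ∃ e : ℕ, 1 ≤ e ∧ ∃ ψ : R →+ R, (∀ r z : R, ψ (r ^ (p ^ e) * z) = r * ψ z) ∧ ψ c = 1 := by
  have := ufd hm hdim
  have hx := prime_x hm hdim
  have hy := prime_x (swap hm) hdim
  have hxy := not_dvd hm hdim
  have hyx := not_dvd (swap hm) hdim
  let g' : ℕ → Fs R p := fun i => toFs (g i)
  have hg' : Submodule.span R (Set.range g') = ⊤ := by
    rw [eq_top_iff]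
    intro r _
    obtain ⟨n, a, hr⟩ := hg r
    have : r = ∑ i ∈ Finset.range n, a i • g' i := hr
    rw [this]
    exact Submodule.sum_mem _ fun i _ => Submodule.smul_mem _ _ (Submodule.subset_span ⟨i, rfl⟩)
  obtain ⟨κ, hκ⟩ := abs_main (A := R) (V := Fs R p) (hD2 hm hdim)
    (frob_T0 φ hφ hφ0) (frob_T1 φ hφ hφ0)
    (frob_free hm hdim φ hφ hφ0) g' hg' (toFs ((x * y) ^ (p - 1))) (not_mem_frob hm hdim)
  let κ' : R →+ R := ⟨⟨fun z => κ (toFs z), κ.map_zero⟩, fun a b => κ.map_add _ _⟩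
  refine split_of_one p hx hy hxy hyx hm hp.out.two_le κ' (fun r z => ?_) hκ c hc
  exact κ.map_smul r (toFs z)

end

end H907F
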