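import Pool.Agent.H907F.Dom

/-! `q⁻¹`-linear maps and height-one primes; the dichotomy in dimension two. -/

set_option linter.unusedSectionVars false

namespace H907F

open IsLocalRing

variable {R : Type*} [CommRing R] [IsDomain R]

lemma exists_divq {q : ℕ} {f : R} (hf : f ≠ 0) (κ : R →+ R)
    (hκ : ∀ r z : R, κ (r ^ q * z) = r * κ z) (h : ∀ z, f ∣ κ z) :
    ∃ κ' : R →+ R, (∀ r z : R, κ' (r ^ q * z) = r * κ' z) ∧ ∀ z, κ z = f * κ' z := by
  choose g hg using h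
  refine ⟨{ toFun := g, map_zero' := ?_, map_add' := ?_ }, ?_, hg⟩
  · apply mul_left_cancel₀ hf
    rw [← hg, map_zero, mul_zero]
  · intro a b
    apply mul_left_cancel₀ hf
    rw [mul_add, ← hg, ← hg, ← hg, map_add]
  · intro r z
    apply mul_left_cancel₀ hf
    change f * g (r ^ q * z) = f * (r * g z)
    rw [← hg, hκ, hg z]; ring

variable [IsNoetherianRing R] [IsLocalRing R]

lemma T1q {q : ℕ} (hq : 1 ≤ q) (φ : R →+ R)
    (hφ : ∀ r z : R, φ (r ^ q * z) = r * φ z) (hφ0 : φ ≠ 0)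
    (f : R) (hf : Prime f) (v : R) (hnd : ¬ f ^ q ∣ v) :
    ∃ κ : R →+ R, (∀ r z : R, κ (r ^ q * z) = r * κ z) ∧ ¬ f ∣ κ v := by
  classical
  let J : Ideal R :=
    { carrier := {z | ∀ κ : R →+ R, (∀ r z : R, κ (r ^ q * z) = r * κ z) → f ∣ κ z}
      zero_mem' := fun κ _ => by simp
      add_mem' := fun {a b} ha hb κ hκ => by rw [map_add]; exact dvd_add (ha κ hκ) (hb κ hκ)
      smul_mem' := by
        intro c z hz κ hκ
        exact hz (κ.comp (AddMonoidHom.mulLeft c)) (fun r z => by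
          simp only [AddMonoidHom.comp_apply, AddMonoidHom.coe_mulLeft]
          rw [← hκ]; congr 1; ring) }
  have hJ : ∀ z, z ∈ J ↔ ∀ κ : R →+ R, (∀ r z : R, κ (r ^ q * z) = r * κ z) → f ∣ κ z :=
    fun z => Iff.rfl
  have h1J : (1 : R) ∉ J := by
    intro h1
    have hall : ∀ κ : R →+ R, (∀ r z : R, κ (r ^ q * z) = r * κ z) → ∀ z, f ∣ κ z := by
      intro κ hκ z
      have : z ∈ J := by have := J.mul_mem_left z h1; rwa [mul_one] at this
      exact (hJ z).1 this κ hκ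
    have hpow : ∀ n : ℕ, ∀ κ : R →+ R, (∀ r z : R, κ (r ^ q * z) = r * κ z) → ∀ z, f ^ n ∣ κ z := by
      intro n
      induction n with
      | zero => intro κ _ z; simp
      | succ n ih =>
        intro κ hκ z
        obtain ⟨κ', hκ', h⟩ := exists_divq hf.ne_zero κ hκ (hall κ hκ)
        rw [h, pow_succ']
        exact mul_dvd_mul dvd_rfl (ih κ' hκ' z)
    apply hφ0
    ext z
    have hk := Ideal.iInf_pow_eq_bot_of_isLocalRing (Ideal.span {f}) (by
      rw [Ne, Ideal.span_singleton_eq_top]; exact hf.not_isUnit)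
    have : φ z ∈ (⨅ i : ℕ, Ideal.span {f} ^ i) := by
      rw [Submodule.mem_iInf]
      intro i
      rw [Ideal.span_singleton_pow, Ideal.mem_span_singleton]
      exact hpow i φ hφ z
    rw [hk] at this
    simpa using this
  have hfi : ∀ i : ℕ, i < q → f ^ i ∉ J := by
    intro i
    induction i with
    | zero => intro _; simpa using h1J
    | succ i ih =>
      intro hip hmem
      apply ih (by omega)
      rw [hJ]
      intro κ hκ
      let κ1 : R →+ R := κ.comp (AddMonoidHom.mulLeft (f ^ (i + 1)))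
      have hκ1 : ∀ r z : R, κ1 (r ^ q * z) = r * κ1 z := by
        intro r z
        simp only [κ1, AddMonoidHom.comp_apply, AddMonoidHom.coe_mulLeft]
        rw [← hκ]; congr 1; ring
      have hdv : ∀ z, f ∣ κ1 z := by
        intro z
        have : f ^ (i + 1) * z ∈ J := J.mul_mem_right _ hmem
        exact (hJ _).1 this κ hκ
      obtain ⟨κ2, hκ2, h2⟩ := exists_divq hf.ne_zero κ1 hκ1 hdv
      have h3 : ∀ z, f * f ∣ κ (f ^ (i + 1) * (f ^ (i + 1) * z)) := by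
        intro z
        have h4 : f ∣ κ2 (f ^ (i + 1) * z) := by
          have : f ^ (i + 1) * z ∈ J := J.mul_mem_right _ hmem
          exact (hJ _).1 this κ2 hκ2
        have h5 := h2 (f ^ (i + 1) * z)
        change κ (f ^ (i + 1) * (f ^ (i + 1) * z)) = _ at h5
        rw [h5]
        exact mul_dvd_mul dvd_rfl h4
      have h6 := h3 (f ^ (q - 1 - (i + 1)))
      have h7 : f ^ (i + 1) * (f ^ (i + 1) * f ^ (q - 1 - (i + 1))) = f ^ q * f ^ i := by
        rw [← pow_add, ← pow_add, ← pow_add]; congr 1; omega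
      rw [h7, hκ] at h6
      exact (mul_dvd_mul_iff_left hf.ne_zero).1 h6
  by_contra hcon
  push Not at hcon
  have hvJ : v ∈ J := by
    rw [hJ]; intro κ hκ
    exact hcon κ hκ
  have hex : ∃ i, ¬ f ^ (i + 1) ∣ v := ⟨q - 1, by rwa [Nat.sub_add_cancel hq]⟩
  set i := Nat.find hex with hi
  have hi1 : ¬ f ^ (i + 1) ∣ v := Nat.find_spec hex
  have hi2 : f ^ i ∣ v := by
    rcases Nat.eq_zero_or_pos i with h0 | h0
    · rw [h0]; simp
    · have := Nat.find_min hex (m := i - 1) (by omega)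
      rw [not_not, Nat.sub_add_cancel h0] at this
      exact this
  have hip : i < q := by
    by_contra hge
    exact hnd ((pow_dvd_pow f (not_lt.1 hge)).trans hi2)
  obtain ⟨w, hw⟩ := hi2
  have hfw : ¬ f ∣ w := by
    rintro ⟨t, rfl⟩
    exact hi1 ⟨t, by rw [hw, pow_succ]; ring⟩
  apply hfi (q - 1) (by omega)
  rw [hJ]
  intro κ hκ
  have h8 : f ^ (q - 1) * w ∈ J := by
    have : f ^ (q - 1) * w = f ^ (q - 1 - i) * v := by
      rw [hw, ← mul_assoc, ← pow_add]; congr 2; omega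
    rw [this]; exact J.mul_mem_left _ hvJ
  have h9 : w ^ q * f ^ (q - 1) ∈ J := by
    have : w ^ q * f ^ (q - 1) = w ^ (q - 1) * (f ^ (q - 1) * w) := by
      have h1 : w ^ q = w ^ (q - 1) * w := by rw [← pow_succ, Nat.sub_add_cancel hq]
      rw [h1]; ring
    rw [this]; exact J.mul_mem_left _ h8
  have h10 := (hJ _).1 h9 κ hκ
  rw [hκ] at h10
  exact (hf.dvd_or_dvd h10).resolve_left hfw

omit [IsNoetherianRing R] [IsLocalRing R] in
lemma exists_ne {q : ℕ} (φ : R →+ R)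
    (hφ : ∀ r z : R, φ (r ^ q * z) = r * φ z) (hφ0 : φ ≠ 0) (hq : 1 ≤ q) (v : R) (hv : v ≠ 0) :
    ∃ κ : R →+ R, (∀ r z : R, κ (r ^ q * z) = r * κ z) ∧ κ v ≠ 0 := by
  obtain ⟨s, hs⟩ : ∃ s, φ s ≠ 0 := by
    by_contra h
    push Not at h
    exact hφ0 (AddMonoidHom.ext h)
  refine ⟨φ.comp (AddMonoidHom.mulLeft (s * v ^ (q - 1))), fun r z => ?_, ?_⟩
  · simp only [AddMonoidHom.comp_apply, AddMonoidHom.coe_mulLeft]
    rw [← hφ]; congr 1; ring
  · simp only [AddMonoidHom.comp_apply, AddMonoidHom.coe_mulLeft]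
    have : s * v ^ (q - 1) * v = v ^ q * s := by
      have h1 : v ^ q = v ^ (q - 1) * v := by rw [← pow_succ, Nat.sub_add_cancel hq]
      rw [h1]; ring
    rw [this, hφ]
    exact mul_ne_zero hv hs

omit [IsNoetherianRing R] [IsLocalRing R] in
/-- nonzero `p⁻ᵉ`-linear maps exist for all `e`. -/
lemma exists_pow (p : ℕ) (hp : 1 ≤ p) (φ : R →+ R)
    (hφ : ∀ r z : R, φ (r ^ p * z) = r * φ z) (hφ0 : φ ≠ 0) (e : ℕ) :
    ∃ ψ : R →+ R, (∀ r z : R, ψ (r ^ (p ^ e) * z) = r * ψ z) ∧ ψ ≠ 0 := by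
  induction e with
  | zero =>
    refine ⟨AddMonoidHom.id R, fun r z => by simp, fun h => ?_⟩
    have := DFunLike.congr_fun h (1 : R)
    simp at this
  | succ e ih =>
    obtain ⟨ψ, hψ, hψ0⟩ := ih
    obtain ⟨s, hs⟩ : ∃ s, φ s ≠ 0 := by
      by_contra h
      push Not at h
      exact hφ0 (AddMonoidHom.ext h)
    obtain ⟨κ, hκ, hκs⟩ := exists_ne ψ hψ hψ0 (Nat.one_le_pow _ _ hp) (φ s) hs
    refine ⟨κ.comp φ, fun r z => ?_, fun h => hκs ?_⟩
    · simp only [AddMonoidHom.comp_apply]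
      rw [pow_succ, pow_mul, hφ, hκ]
    · exact DFunLike.congr_fun h s

/-- In a Noetherian local UFD with a nonzero `p⁻¹`-linear map, for each `c ≠ 0` and all large `e`
the ideal of values at `c` of `p⁻ᵉ`-linear maps lies in no principal prime ideal. -/
lemma codim_one (p : ℕ) (hp : 2 ≤ p) (φ : R →+ R)
    (hφ : ∀ r z : R, φ (r ^ p * z) = r * φ z) (hφ0 : φ ≠ 0) (c : R) (hc : c ≠ 0) :
    ∃ e0 : ℕ, ∀ e : ℕ, e0 ≤ e → ∀ f : R, ¬ IsUnit f → (f = 0 ∨ Prime f) →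
      ∃ ψ : R →+ R, (∀ r z : R, ψ (r ^ (p ^ e) * z) = r * ψ z) ∧ ¬ f ∣ ψ c := by
  obtain ⟨N, hN⟩ : ∃ N : ℕ, c ∉ maximalIdeal R ^ N := by
    by_contra hcon
    push Not at hcon
    have hk := Ideal.iInf_pow_eq_bot_of_isLocalRing (maximalIdeal R)
      (maximalIdeal.isMaximal R).ne_top
    have : c ∈ (⨅ i : ℕ, maximalIdeal R ^ i) := by
      rw [Submodule.mem_iInf]; exact hcon
    rw [hk] at this
    exact hc (by simpa using this)
  refine ⟨N, fun e he f hfu hf => ?_⟩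
  have hq : N ≤ p ^ e := he.trans (Nat.lt_pow_self (by omega)).le
  have hq1 : 1 ≤ p ^ e := Nat.one_le_pow _ _ (by omega)
  obtain ⟨ψ, hψ, hψ0⟩ := exists_pow p (by omega) φ hφ hφ0 e
  rcases hf with rfl | hf
  · obtain ⟨κ, hκ, hκc⟩ := exists_ne ψ hψ hψ0 hq1 c hc
    exact ⟨κ, hκ, fun h => hκc (zero_dvd_iff.1 h)⟩
  · refine T1q hq1 ψ hψ hψ0 f hf c ?_
    rintro ⟨t, ht⟩
    apply hN
    refine Ideal.pow_le_pow_right hq ?_
    rw [ht]
    exact Ideal.mul_mem_right _ _ (Ideal.pow_mem_pow ((mem_maximalIdeal f).2 hfu) _)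

/-- dimension two: the ideal of values contains a power of the maximal ideal. -/
lemma punctured (p : ℕ) (hp : 2 ≤ p) {x y : R} (hm : maximalIdeal R = Ideal.span {x, y})
    (hdim : ringKrullDim R = 2) (φ : R →+ R)
    (hφ : ∀ r z : R, φ (r ^ p * z) = r * φ z) (hφ0 : φ ≠ 0) (c : R) (hc : c ≠ 0) :
    ∃ e0 : ℕ, ∀ e : ℕ, e0 ≤ e → ∃ s : ℕ, ∀ d ∈ maximalIdeal R ^ s,
      ∃ ψ : R →+ R, (∀ r z : R, ψ (r ^ (p ^ e) * z) = r * ψ z) ∧ ψ c = d := by
  obtain ⟨e0, h⟩ := codim_one p hp φ hφ hφ0 c hc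
  refine ⟨e0, fun e he => ?_⟩
  let I : Ideal R :=
    { carrier := {d | ∃ ψ : R →+ R, (∀ r z : R, ψ (r ^ (p ^ e) * z) = r * ψ z) ∧ ψ c = d}
      zero_mem' := ⟨0, fun r z => by simp, by simp⟩
      add_mem' := by
        rintro a b ⟨ψ1, h1, rfl⟩ ⟨ψ2, h2, rfl⟩
        exact ⟨ψ1 + ψ2, fun r z => by simp [h1, h2, mul_add], by simp⟩
      smul_mem' := by
        rintro a b ⟨ψ1, h1, rfl⟩
        exact ⟨(AddMonoidHom.mulLeft a).comp ψ1, fun r z => by
          simp only [AddMonoidHom.comp_apply, AddMonoidHom.coe_mulLeft]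
          rw [h1]; ring, by simp⟩ }
  have hrad : maximalIdeal R ≤ I.radical := by
    rw [Ideal.radical_eq_sInf]
    refine le_sInf ?_
    rintro q ⟨hq1, hq⟩
    have hq' : q.IsPrime := hq
    by_contra hcon
    have hne : q ≠ maximalIdeal R := fun h => hcon h.ge
    obtain ⟨g, hg⟩ := principal hm hdim q hne
    have hgu : ¬ IsUnit g := fun hu => hq'.ne_top (by rw [hg, Ideal.span_singleton_eq_top]; exact hu)
    have hgp : g = 0 ∨ Prime g := by
      by_cases hg0 : g = 0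
      · exact Or.inl hg0
      · right
        rw [← Ideal.span_singleton_prime hg0, ← hg]; exact hq'
    obtain ⟨ψ, hψ, hψc⟩ := h e he g hgu hgp
    apply hψc
    have : ψ c ∈ q := hq1 ⟨ψ, hψ, rfl⟩
    rwa [hg, Ideal.mem_span_singleton] at this
  obtain ⟨s, hs⟩ := Ideal.exists_pow_le_of_le_radical_of_fg hrad (IsNoetherian.noetherian _)
  exact ⟨s, fun d hd => hs hd⟩

omit [IsDomain R] [IsNoetherianRing R] [IsLocalRing R] in
lemma iter_one (p e0 : ℕ) (ψ0 : R →+ R) (h0 : ∀ r z : R, ψ0 (r ^ (p ^ e0) * z) = r * ψ0 z)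
    (w : R) (hw : ψ0 w = 1) (n : ℕ) :
    ∃ (K : R →+ R) (N : ℕ), n ≤ N ∧ (∀ r z : R, K (r ^ (p ^ (e0 * n)) * z) = r * K z) ∧
      K (w ^ N) = 1 := by
  induction n with
  | zero => exact ⟨AddMonoidHom.id R, 0, le_rfl, fun r z => by simp, by simp⟩
  | succ n ih =>
    obtain ⟨K, N, hN, hK, hK1⟩ := ih
    rcases Nat.eq_zero_or_pos (p ^ e0) with hz | hz
    · -- degenerate: p ^ e0 = 0
      have h1 := h0 w 1
      have h2 := h0 (w * w) 1
      rw [hz, pow_zero, one_mul] at h1 h2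
      have h3 := h0 (1 : R) 1
      have h4 := h0 (0 : R) 1
      rw [hz, pow_zero, one_mul, zero_mul] at h4
      have h5 := h0 0 w
      rw [hz, pow_zero, one_mul, zero_mul, hw] at h5
      have : Subsingleton R := subsingleton_of_zero_eq_one h5.symm
      exact ⟨0, n + 1, le_rfl, fun r z => Subsingleton.elim _ _, Subsingleton.elim _ _⟩
    refine ⟨K.comp ψ0, N * p ^ e0 + 1, ?_, fun r z => ?_, ?_⟩
    · have : N * 1 ≤ N * p ^ e0 := Nat.mul_le_mul_left _ hz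
      omega
    · simp only [AddMonoidHom.comp_apply]
      rw [Nat.mul_succ, pow_add, pow_mul, h0, hK]
    · simp only [AddMonoidHom.comp_apply]
      rw [pow_succ, pow_mul, h0, hw, mul_one, hK1]

theorem dichotomy (p : ℕ) (hp : 2 ≤ p) {x y : R} (hm : maximalIdeal R = Ideal.span {x, y})
    (hdim : ringKrullDim R = 2) (φ : R →+ R)
    (hφ : ∀ r z : R, φ (r ^ p * z) = r * φ z) (hφ0 : φ ≠ 0)
    (e0 : ℕ) (ψ0 : R →+ R) (h0 : ∀ r z : R, ψ0 (r ^ (p ^ e0) * z) = r * ψ0 z)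
    (w : R) (hwm : w ∈ maximalIdeal R) (hw : ψ0 w = 1) (c : R) (hc : c ≠ 0) :
    ∃ e : ℕ, 1 ≤ e ∧ ∃ ψ : R →+ R, (∀ r z : R, ψ (r ^ (p ^ e) * z) = r * ψ z) ∧ ψ c = 1 := by
  obtain ⟨e1, h1⟩ := punctured p hp hm hdim φ hφ hφ0 c hc
  obtain ⟨s, hs⟩ := h1 (e1 + 1) (by omega)
  obtain ⟨K, N, hN, hK, hK1⟩ := iter_one p e0 ψ0 h0 w hw s
  have hwN : w ^ N ∈ maximalIdeal R ^ s := Ideal.pow_le_pow_right hN (Ideal.pow_mem_pow hwm N)
  obtain ⟨ψ, hψ, hψc⟩ := hs _ hwN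
  refine ⟨e0 * s + (e1 + 1), by omega, K.comp ψ, fun r z => ?_, ?_⟩
  · simp only [AddMonoidHom.comp_apply]
    rw [pow_add, pow_mul, hψ, hK]
  · simp only [AddMonoidHom.comp_apply]
    rw [hψc, hK1]

end H907F
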