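import Mathlib

/-! Linear algebra over a domain: a submodule of `B^ι` that separates points of the dual
contains `b • B^ι` for some nonzero `b`. -/

namespace H907F

open Module

theorem la {B : Type*} [CommRing B] [IsDomain B] {ι : Type*} [Fintype ι]
    (I : Submodule B (ι → B))
    (h : ∀ z : ι → B, z ≠ 0 → ∃ w ∈ I, ∑ i, w i * z i ≠ 0) :
    ∃ b : B, b ≠ 0 ∧ ∀ z : ι → B, b • z ∈ I := by
  classical
  let K := FractionRing B
  let am : B → K := algebraMap B K
  have inj : Function.Injective am := IsFractionRing.injective B K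
  let W : Submodule K (ι → K) :=
    { carrier := {z | ∃ b : B, b ≠ 0 ∧ ∃ w ∈ I, ∀ i, am b * z i = am (w i)}
      zero_mem' := ⟨1, one_ne_zero, 0, I.zero_mem, fun i => by simp [am]⟩
      add_mem' := by
        rintro z1 z2 ⟨b1, hb1, w1, hw1, h1⟩ ⟨b2, hb2, w2, hw2, h2⟩
        refine ⟨b1 * b2, mul_ne_zero hb1 hb2, b2 • w1 + b1 • w2,
          I.add_mem (I.smul_mem _ hw1) (I.smul_mem _ hw2), fun i => ?_⟩
        have e1 := h1 i
        have e2 := h2 i
        simp only [am, map_mul, Pi.add_apply, Pi.smul_apply, smul_eq_mul, map_add] at *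
        rw [← e1, ← e2]; ring
      smul_mem' := by
        rintro c z ⟨b, hb, w, hw, h1⟩
        obtain ⟨c1, c2, hc2, rfl⟩ := IsFractionRing.div_surjective (A := B) c
        have hc2' : c2 ≠ 0 := nonZeroDivisors.ne_zero hc2
        refine ⟨c2 * b, mul_ne_zero hc2' hb, c1 • w, I.smul_mem _ hw, fun i => ?_⟩
        have e1 := h1 i
        have h2 : (algebraMap B K c2) ≠ 0 := fun h0 => hc2' (inj (by simpa [am] using h0))
        change algebraMap B K (c2 * b) * (algebraMap B K c1 / algebraMap B K c2 * z i) =
          algebraMap B K (c1 * w i)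
        change algebraMap B K b * z i = algebraMap B K (w i) at e1
        rw [map_mul, map_mul, ← e1, div_mul_eq_mul_div, mul_div_assoc', div_eq_iff h2]
        ring }
  have hW : W = ⊤ := by
    by_contra hne
    obtain ⟨f, hf0, hf⟩ := Submodule.exists_dual_map_eq_bot_of_lt_top (lt_top_iff_ne_top.2 hne)
      inferInstance
    obtain ⟨d, hd⟩ := IsLocalization.exist_integer_multiples_of_finite (nonZeroDivisors B)
      (fun i : ι => f (Pi.single i 1))
    choose z' hz' using hd
    have hd0 : am d ≠ 0 := fun h0 => nonZeroDivisors.ne_zero d.2 (inj (by simpa [am] using h0))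
    have hexp : ∀ w : ι → K, f w = ∑ i, w i * f (Pi.single i 1) := by
      intro w
      conv_lhs => rw [← Finset.univ_sum_single w]
      rw [map_sum]
      refine Finset.sum_congr rfl fun i _ => ?_
      have : (Pi.single i (w i) : ι → K) = w i • Pi.single i 1 := by
        rw [← Pi.single_smul]; simp
      rw [this, map_smul, smul_eq_mul]
    have hz0 : z' ≠ 0 := by
      intro h0
      apply hf0
      ext i
      have := hz' i
      rw [h0] at this
      simp only [Pi.zero_apply, map_zero] at this
      have h2 : am d * f (Pi.single i 1) = 0 := by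
        rw [show am d * f (Pi.single i 1) = (d : B) • f (Pi.single i 1) from
          (Algebra.smul_def _ _).symm]
        exact this.symm
      rcases mul_eq_zero.1 h2 with h3 | h3
      · exact absurd h3 hd0
      · simpa using h3
    obtain ⟨w, hw, hsum⟩ := h z' hz0
    apply hsum
    have hwW : (fun i => am (w i)) ∈ W := ⟨1, one_ne_zero, w, hw, fun i => by simp [am]⟩
    have hfw : f (fun i => am (w i)) = 0 := by
      have : f (fun i => am (w i)) ∈ Submodule.map f W := ⟨_, hwW, rfl⟩
      rw [hf] at this
      simpa using this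
    rw [hexp] at hfw
    apply inj
    have : am (∑ i, w i * z' i) = am d * ∑ i, am (w i) * f (Pi.single i 1) := by
      simp only [am, map_sum, map_mul, Finset.mul_sum]
      refine Finset.sum_congr rfl fun i _ => ?_
      rw [hz' i, Algebra.smul_def]; ring
    rw [this, hfw]; simp [am]
  have hone : ∀ i, ∃ b : B, b ≠ 0 ∧ b • (Pi.single i 1 : ι → B) ∈ I := by
    intro i
    have : (Pi.single i 1 : ι → K) ∈ W := by rw [hW]; trivial
    obtain ⟨b, hb, w, hw, e⟩ := this
    refine ⟨b, hb, ?_⟩
    have : b • (Pi.single i 1 : ι → B) = w := by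
      ext j
      apply inj
      rw [← e j]
      by_cases hij : j = i
      · subst hij; simp [am]
      · simp [am, Pi.single_eq_of_ne hij]
    rw [this]; exact hw
  choose b hb hbI using hone
  refine ⟨∏ i, b i, Finset.prod_ne_zero_iff.2 fun i _ => hb i, fun z => ?_⟩
  have : (∏ i, b i) • z = ∑ i, (z i * ∏ j ∈ Finset.univ.erase i, b j) •
      (b i • (Pi.single i 1 : ι → B)) := by
    ext j
    simp only [Pi.smul_apply, smul_eq_mul, Finset.sum_apply]
    rw [Finset.sum_eq_single j]
    · simp only [Pi.single_eq_same, mul_one]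
      rw [← Finset.mul_prod_erase Finset.univ b (Finset.mem_univ j)]; ring
    · intro i _ hij
      simp [Pi.single_eq_of_ne (Ne.symm hij)]
    · intro hj; exact absurd (Finset.mem_univ j) hj
  rw [this]
  exact I.sum_mem fun i _ => I.smul_mem _ (hbI i)

end H907F
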