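import Pool.Agent.H907F.Frob

/-! Projectivity of countably generated modules with enough functionals. -/

set_option linter.unusedSectionVars false

namespace H907F

open Module

section
variable {A : Type*} [CommRing A] {V : Type*} [AddCommGroup V] [Module A V]
  {M : Type*} [AddCommGroup M] [Module A M]

/-- gluing of a compatible sequence of linear maps -/
lemma glueM (N : ℕ → Submodule A V) (hmono : Monotone N) (hcov : ∀ v : V, ∃ n, v ∈ N n)
    (κ : ∀ n, N n →ₗ[A] M)
    (hc : ∀ n (v : V) (hv : v ∈ N n), κ (n + 1) ⟨v, hmono (Nat.le_succ n) hv⟩ = κ n ⟨v, hv⟩) :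
    ∃ K : V →ₗ[A] M, ∀ n (v : V) (hv : v ∈ N n), K v = κ n ⟨v, hv⟩ := by
  classical
  have hc' : ∀ n k (v : V) (hv : v ∈ N n),
      κ (n + k) ⟨v, hmono (Nat.le_add_right n k) hv⟩ = κ n ⟨v, hv⟩ := by
    intro n k v hv
    induction k with
    | zero => rfl
    | succ k ih => rw [← ih]; exact hc (n + k) v (hmono (Nat.le_add_right n k) hv)
  have hc'' : ∀ n m (v : V) (hn : v ∈ N n) (hm : v ∈ N m), κ n ⟨v, hn⟩ = κ m ⟨v, hm⟩ := by
    intro n m v hn hm
    rcases le_total n m with h | h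
    · obtain ⟨k, rfl⟩ := Nat.exists_eq_add_of_le h
      exact (hc' n k v hn).symm
    · obtain ⟨k, rfl⟩ := Nat.exists_eq_add_of_le h
      exact hc' m k v hm
  choose idx hidx using hcov
  refine ⟨{ toFun := fun v => κ (idx v) ⟨v, hidx v⟩, map_add' := ?_, map_smul' := ?_ }, ?_⟩
  · intro u v
    let M := max (idx (u + v)) (max (idx u) (idx v))
    have hu : u ∈ N M := hmono (le_trans (le_max_left _ _) (le_max_right _ _)) (hidx u)
    have hv : v ∈ N M := hmono (le_trans (le_max_right _ _) (le_max_right _ _)) (hidx v)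
    rw [hc'' _ M (u + v) _ (Submodule.add_mem _ hu hv), hc'' _ M u _ hu, hc'' _ M v _ hv,
      ← map_add]
    rfl
  · intro a v
    have hv : a • v ∈ N (idx v) := Submodule.smul_mem _ _ (hidx v)
    rw [RingHom.id_apply, hc'' _ (idx v) (a • v) _ hv, ← map_smul]
    rfl
  · intro n v hv
    exact hc'' _ _ _ _ _

end

section
variable {A : Type*} [CommRing A] {V : Type*} [AddCommGroup V] [Module A V]

theorem projective_of (N : ℕ → Submodule A V) (hmono : Monotone N)
    (hcov : ∀ v : V, ∃ n, v ∈ N n) (hproj : ∀ n, Module.Projective A (N n))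
    (hid : ∀ n, ∃ m, n ≤ m ∧ ∃ h : V →ₗ[A] N m, ∀ u ∈ N n, (h u : V) = u) :
    Module.Projective A V := by
  classical
  choose m hm h hh using hid
  let q : ℕ → ℕ := fun j => Nat.rec 0 (fun _ r => m r + 1) j
  have hq : ∀ j, q (j + 1) = m (q j) + 1 := fun j => rfl
  have hqlt : ∀ j, q j < q (j + 1) := fun j => by rw [hq]; have := hm (q j); omega
  have hqm : StrictMono q := strictMono_nat_of_lt_succ hqlt
  have hle : ∀ j, N (q j) ≤ N (q (j + 1)) := fun j => hmono (hqlt j).le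
  have hle' : ∀ j, N (m (q j)) ≤ N (q (j + 1)) := fun j => hmono (by rw [hq]; omega)
  let H : ∀ j, V →ₗ[A] N (q (j + 1)) := fun j => Submodule.inclusion (hle' j) ∘ₗ h (q j)
  have hH : ∀ j, ∀ u ∈ N (q j), (H j u : V) = u := fun j u hu => hh (q j) u hu
  let D : ∀ j, V →ₗ[A] N (q (j + 1)) := fun j =>
    Nat.casesOn j (H 0) (fun i => H (i + 1) - Submodule.inclusion (hle (i + 1)) ∘ₗ H i)
  have hD0 : ∀ v, (D 0 v : V) = H 0 v := fun v => rfl
  have hDs : ∀ j v, (D (j + 1) v : V) = H (j + 1) v - H j v := fun j v => rfl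
  refine Module.Projective.of_lifting_property'' fun f hf => ?_
  have ht : ∀ j, ∃ t : N (q (j + 1)) →ₗ[A] (V →₀ A), f ∘ₗ t = (N (q (j + 1))).subtype := fun j => by
    have := hproj (q (j + 1))
    exact Module.projective_lifting_property f _ hf
  choose t ht using ht
  have ht' : ∀ j (u : N (q (j + 1))), f (t j u) = u := fun j u => LinearMap.congr_fun (ht j) u
  let S : ℕ → V →ₗ[A] (V →₀ A) := fun j => ∑ i ∈ Finset.range (j + 1), t i ∘ₗ D i
  have hSs : ∀ j v, S (j + 1) v = S j v + t (j + 1) (D (j + 1) v) := by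
    intro j v
    simp only [S]
    rw [Finset.sum_range_succ _ (j + 1)]
    rfl
  have hS0 : ∀ v, S 0 v = t 0 (D 0 v) := by
    intro v
    have h1 : S 0 = t 0 ∘ₗ D 0 := Finset.sum_range_one _
    rw [h1]
    rfl
  have hfS : ∀ j v, f (S j v) = H j v := by
    intro j v
    induction j with
    | zero => rw [hS0, ht', hD0]
    | succ j ih =>
      rw [hSs, map_add, ih, ht', hDs]
      abel
  obtain ⟨K, hK⟩ := glueM (fun j => N (q j)) (fun i j hij => hmono (hqm.monotone hij))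
    (fun v => by
      obtain ⟨n, hn⟩ := hcov v
      exact ⟨n, hmono (hqm.le_apply) hn⟩)
    (fun j => S j ∘ₗ (N (q j)).subtype) (fun j v hv => by
      simp only [LinearMap.comp_apply, Submodule.subtype_apply]
      rw [hSs]
      have h0 : D (j + 1) v = 0 := by
        apply Subtype.ext
        rw [hDs, hH (j + 1) v (hle j hv), hH j v hv, sub_self]
        rfl
      rw [h0, map_zero, add_zero])
  refine ⟨K, LinearMap.ext fun v => ?_⟩
  obtain ⟨n, hn⟩ := hcov v
  have hn' : v ∈ N (q n) := hmono (hqm.le_apply) hn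
  rw [LinearMap.comp_apply, hK n v hn']
  simp only [LinearMap.comp_apply, Submodule.subtype_apply, LinearMap.id_apply]
  rw [hfS, hH n v hn']

lemma abs_ext (N : ℕ → Submodule A V) (hmono : Monotone N) (hcov : ∀ v : V, ∃ n, v ∈ N n)
    (hstab : ∀ n, ∃ k, ∀ l, k ≤ l →
      LinearMap.range (LinearMap.lcomp A A (Submodule.inclusion (hmono (Nat.le_add_right n k)))) ≤
      LinearMap.range (LinearMap.lcomp A A (Submodule.inclusion (hmono (Nat.le_add_right n l)))))
    (n : ℕ) : ∃ k, ∀ κ : N (n + k) →ₗ[A] A, ∃ K : V →ₗ[A] A,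
      ∀ (u : V) (hu : u ∈ N n), K u = κ ⟨u, hmono (Nat.le_add_right n k) hu⟩ := by
  classical
  let res : ∀ n k, (N (n + k) →ₗ[A] A) →ₗ[A] (N n →ₗ[A] A) := fun n k =>
    LinearMap.lcomp A A (Submodule.inclusion (hmono (Nat.le_add_right n k)))
  have hanti : ∀ n k l, k ≤ l → LinearMap.range (res n l) ≤ LinearMap.range (res n k) := by
    rintro n k l hkl _ ⟨κ, rfl⟩
    exact ⟨κ ∘ₗ Submodule.inclusion (hmono (Nat.add_le_add_left hkl n)), rfl⟩
  let P : ∀ n, (N n →ₗ[A] A) → Prop := fun n κ => ∀ k, κ ∈ LinearMap.range (res n k)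
  have hstep : ∀ n (κ : N n →ₗ[A] A), P n κ → ∃ κ' : N (n + 1) →ₗ[A] A, P (n + 1) κ' ∧
      ∀ (u : V) (hu : u ∈ N n), κ' ⟨u, hmono (Nat.le_succ n) hu⟩ = κ ⟨u, hu⟩ := by
    intro n κ hκ
    obtain ⟨k, hk⟩ := hstab (n + 1)
    obtain ⟨κ2, hκ2⟩ := hκ (1 + k)
    have hle : N (n + 1 + k) ≤ N (n + (1 + k)) := hmono (by omega)
    let κ3 : N (n + 1 + k) →ₗ[A] A := κ2 ∘ₗ Submodule.inclusion hle
    refine ⟨res (n + 1) k κ3, ?_, ?_⟩
    · intro l
      rcases le_total k l with hkl | hkl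
      · exact hk l hkl ⟨κ3, rfl⟩
      · exact hanti (n + 1) l k hkl ⟨κ3, rfl⟩
    · intro u hu
      rw [← hκ2]
      rfl
  choose! step hP hc using hstep
  obtain ⟨k0, hk0⟩ := hstab n
  refine ⟨k0, fun l0 => ?_⟩
  let κ0 : N n →ₗ[A] A := res n k0 l0
  have hκ0 : P n κ0 := by
    intro l
    rcases le_total k0 l with hkl | hkl
    · exact hk0 l hkl ⟨l0, rfl⟩
    · exact hanti n l k0 hkl ⟨l0, rfl⟩
  let s : ∀ j, {κ : N (n + j) →ₗ[A] A // P (n + j) κ} := fun j =>
    Nat.rec ⟨κ0, hκ0⟩ (fun j κ => ⟨step (n + j) κ.1, hP (n + j) κ.1 κ.2⟩) j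
  obtain ⟨K, hK⟩ := glueM (fun j => N (n + j)) (fun i j hij => hmono (Nat.add_le_add_left hij n))
    (fun v => by
      obtain ⟨i, hi⟩ := hcov v
      exact ⟨i, hmono (Nat.le_add_left i n) hi⟩)
    (fun j => (s j).1) (fun j u hu => hc (n + j) (s j).1 (s j).2 u hu)
  refine ⟨K, fun u hu => ?_⟩
  exact hK 0 u hu

end

section
variable {A : Type*} [CommRing A] [IsDomain A] [IsNoetherianRing A] [IsLocalRing A]
  [UniqueFactorizationMonoid A] {V : Type*} [AddCommGroup V] [Module A V]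

/-- Projectivity. -/
theorem abs_projective
    (hD2 : ∀ f c : A, Prime f → ¬ f ∣ c →
      ∃ s : ℕ, (IsLocalRing.maximalIdeal A) ^ s ≤ Ideal.span {c, f})
    (hT0 : ∀ v : V, v ≠ 0 → ∃ κ : V →ₗ[A] A, κ v ≠ 0)
    (hT1 : ∀ f : A, Prime f → ∀ v : V, (∀ u : V, v ≠ f • u) → ∃ κ : V →ₗ[A] A, ¬ f ∣ κ v)
    (hfree : ∀ N : Submodule A V, N.FG → (∀ (a : A) (v : V), a ≠ 0 → a • v ∈ N → v ∈ N) →
      Module.Free A N)
    (g : ℕ → V) (hg : Submodule.span A (Set.range g) = ⊤) : Module.Projective A V := by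
  classical
  let N : ℕ → Submodule A V := fun n => sat (Submodule.span A (g '' Set.Iio n))
  have hmono : Monotone N := fun i j hij => sat_mono (Submodule.span_mono
    (Set.image_mono (Set.Iio_subset_Iio hij)))
  have hNfg : ∀ n, (N n).FG := fun n => sat_fg hT0 _ (Submodule.fg_span
    ((Set.finite_Iio n).image g))
  have hNsat : ∀ n (a : A) (u : V), a ≠ 0 → a • u ∈ N n → u ∈ N n := fun n a u ha h =>
    sat_sat _ ha h
  have hcov : ∀ u : V, ∃ n, u ∈ N n := by
    intro u
    have hu : u ∈ Submodule.span A (Set.range g) := by rw [hg]; trivial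
    have hle : Submodule.span A (Set.range g) ≤ ⨆ n, N n := by
      rw [Submodule.span_le]
      rintro _ ⟨i, rfl⟩
      refine Submodule.mem_iSup_of_mem (i + 1) (le_sat _ (Submodule.subset_span ?_))
      exact ⟨i, Nat.lt_succ_self i, rfl⟩
    exact (Submodule.mem_iSup_of_directed _ hmono.directed_le).1 (hle hu)
  have hfr : ∀ n, Module.Free A (N n) := fun n => hfree (N n) (hNfg n) (hNsat n)
  have hfi : ∀ n, Module.Finite A (N n) := fun n => Module.Finite.iff_fg.2 (hNfg n)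
  let res : ∀ n k, (N (n + k) →ₗ[A] A) →ₗ[A] (N n →ₗ[A] A) := fun n k =>
    LinearMap.lcomp A A (Submodule.inclusion (hmono (Nat.le_add_right n k)))
  have hIN : ∀ n k, IN (N n) ≤ LinearMap.range (res n k) := by
    rintro n k _ ⟨κ, rfl⟩
    exact ⟨resL (N (n + k)) κ, rfl⟩
  have hanti : ∀ n k l, k ≤ l → LinearMap.range (res n l) ≤ LinearMap.range (res n k) := by
    rintro n k l hkl _ ⟨κ, rfl⟩
    exact ⟨κ ∘ₗ Submodule.inclusion (hmono (Nat.add_le_add_left hkl n)), rfl⟩
  have hstab : ∀ n, ∃ k, ∀ l, k ≤ l →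
      LinearMap.range (res n k) ≤ LinearMap.range (res n l) := by
    intro n
    have := hfr n
    have := hfi n
    have hA : IsArtinian A ((N n →ₗ[A] A) ⧸ IN (N n)) :=
      key_artin hD2 hT0 hT1 (N n) (hfr n) (hfi n) (hNsat n)
    let F : ℕ →o (Submodule A ((N n →ₗ[A] A) ⧸ IN (N n)))ᵒᵈ :=
      { toFun := fun k => OrderDual.toDual (Submodule.map (IN (N n)).mkQ (LinearMap.range (res n k)))
        monotone' := fun k l hkl => Submodule.map_mono (hanti n k l hkl) }
    obtain ⟨k, hk⟩ := IsArtinian.monotone_stabilizes F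
    refine ⟨k, fun l hkl => ?_⟩
    have h1 : Submodule.map (IN (N n)).mkQ (LinearMap.range (res n k)) =
        Submodule.map (IN (N n)).mkQ (LinearMap.range (res n l)) := hk l hkl
    have h2 : ∀ j, Submodule.comap (IN (N n)).mkQ (Submodule.map (IN (N n)).mkQ
        (LinearMap.range (res n j))) = LinearMap.range (res n j) := by
      intro j
      rw [Submodule.comap_map_mkQ, sup_eq_right.2 (hIN n j)]
    rw [← h2 k, h1, h2 l]
  refine projective_of N hmono hcov (fun n => by have := hfr n; infer_instance) fun n => ?_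
  obtain ⟨k, hk⟩ := abs_ext N hmono hcov hstab n
  have := hfr (n + k)
  have := hfi (n + k)
  let b := Module.Free.chooseBasis A (N (n + k))
  choose K hK using fun i => hk (b.coord i)
  refine ⟨n + k, Nat.le_add_right n k, ∑ i, (K i).smulRight (b i), fun u hu => ?_⟩
  have h1 : (∑ i, (K i).smulRight (b i)) u = ⟨u, hmono (Nat.le_add_right n k) hu⟩ := by
    rw [LinearMap.sum_apply]
    conv_rhs => rw [← b.sum_repr ⟨u, hmono (Nat.le_add_right n k) hu⟩]
    refine Finset.sum_congr rfl fun i _ => ?_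
    rw [LinearMap.smulRight_apply, hK i u hu]
    rfl
  rw [h1]

end

end H907F
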