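import Pool.Agent.H907F.Proj
import Pool.Agent.H907F.Dom

/-! In dimension two the Frobenius module is projective if it is countably generated. -/

set_option linter.unusedSectionVars false

namespace H907F

open IsLocalRing Module

section
variable {R : Type*} [CommRing R] {p : ℕ} [hp : Fact p.Prime] [CharP R p]

theorem proj_dim_two [IsDomain R] [IsNoetherianRing R] [IsLocalRing R] {x y : R}
    (hm : maximalIdeal R = Ideal.span {x, y}) (hdim : ringKrullDim R = 2)
    (φ : R →+ R) (hφ : ∀ r z : R, φ (r ^ p * z) = r * φ z) (hφ0 : φ ≠ 0)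
    (g : ℕ → R) (hg : ∀ r : R, ∃ (n : ℕ) (a : ℕ → R), r = ∑ i ∈ Finset.range n, a i ^ p * g i) :
    ∃ s : R →+ (R →₀ R), (∀ a z : R, s (a ^ p * z) = a • s z) ∧
      ∀ z : R, z = (s z).sum fun b a => a ^ p * b := by
  have := ufd hm hdim
  let g' : ℕ → Fs R p := fun i => toFs (g i)
  have hg' : Submodule.span R (Set.range g') = ⊤ := by
    rw [eq_top_iff]
    intro r _
    obtain ⟨n, a, hr⟩ := hg r
    have : r = ∑ i ∈ Finset.range n, a i • g' i := hr
    rw [this]
    exact Submodule.sum_mem _ fun i _ => Submodule.smul_mem _ _ (Submodule.subset_span ⟨i, rfl⟩)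
  have hproj : Module.Projective R (Fs R p) := abs_projective (A := R) (V := Fs R p) (hD2 hm hdim)
    (frob_T0 φ hφ hφ0) (frob_T1 φ hφ hφ0) (frob_free hm hdim φ hφ hφ0) g' hg'
  obtain ⟨s, hs⟩ := hproj.out
  let s' : R →+ (R →₀ R) := ⟨⟨fun z => s (toFs z), s.map_zero⟩, fun a b => s.map_add _ _⟩
  refine ⟨s', fun a z => s.map_smul a (toFs z), fun z => ?_⟩
  have h1 := hs (toFs z)
  rw [Finsupp.linearCombination_apply] at h1
  exact h1.symm

end

end H907F
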