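import Mathlib

/-! Two-dimensional regular local domains: elementary facts. -/

set_option linter.unusedSectionVars false

namespace H907F

open IsLocalRing

variable {A : Type*} [CommRing A] [IsNoetherianRing A] [IsLocalRing A]

lemma jac : maximalIdeal A ≤ Ideal.jacobson (⊥ : Ideal A) := by
  rw [IsLocalRing.jacobson_eq_maximalIdeal _ bot_ne_top]

lemma prime_eq_span {x y : A} (hm : maximalIdeal A = Ideal.span {x, y}) (q : Ideal A)
    [hq : q.IsPrime] (hx : x ∈ q) (hy : y ∉ q) : q = Ideal.span {x} := by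
  refine le_antisymm ?_ ((Ideal.span_singleton_le_iff_mem _).2 hx)
  refine Submodule.le_of_le_smul_of_le_jacobson_bot (I := maximalIdeal A)
    (IsNoetherian.noetherian q) jac ?_
  intro z hz
  have hzm : z ∈ maximalIdeal A := IsLocalRing.le_maximalIdeal hq.ne_top hz
  rw [hm, Ideal.mem_span_pair] at hzm
  obtain ⟨a, b, hab⟩ := hzm
  have hb : b ∈ q := by
    have h1 : b * y ∈ q := by
      have : b * y = z - a * x := by rw [← hab]; ring
      rw [this]; exact q.sub_mem hz (q.mul_mem_left _ hx)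
    exact (hq.mem_or_mem h1).resolve_right hy
  rw [← hab]
  refine Submodule.add_mem_sup (Ideal.mem_span_singleton'.2 ⟨a, rfl⟩) ?_
  rw [mul_comm]
  refine Submodule.smul_mem_smul ?_ hb
  rw [hm]; exact Ideal.subset_span (by simp)

lemma height_two (hdim : ringKrullDim A = 2) : ¬ (maximalIdeal A).height ≤ 1 := by
  intro h
  have h1 := IsLocalRing.maximalIdeal_height_eq_ringKrullDim (R := A)
  rw [hdim] at h1
  have h2 : ((maximalIdeal A).height : WithBot ℕ∞) ≤ ((1 : ℕ∞) : WithBot ℕ∞) :=
    WithBot.coe_le_coe.2 h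
  rw [h1] at h2
  exact absurd h2 (by decide)

lemma exists_prime {x y : A} (hm : maximalIdeal A = Ideal.span {x, y})
    (hdim : ringKrullDim A = 2) : (Ideal.span {x}).IsPrime ∧ y ∉ Ideal.span {x} := by
  have hxm : Ideal.span {x} ≤ maximalIdeal A := by
    rw [hm]; exact Ideal.span_mono (by simp)
  obtain ⟨q, hq, hqm⟩ := Ideal.exists_minimalPrimes_le hxm
  have hqP : q.IsPrime := hq.1.1
  have hxq : x ∈ q := hq.1.2 (Ideal.mem_span_singleton_self x)
  have hyq : y ∉ q := by
    intro hy
    have : q = maximalIdeal A := le_antisymm hqm (by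
      rw [hm, Ideal.span_le]; rintro z hz
      rcases hz with rfl | rfl
      · exact hxq
      · exact hy)
    rw [this] at hq
    exact height_two hdim (Ideal.height_le_one_of_isPrincipal_of_mem_minimalPrimes _ _ hq)
  have := prime_eq_span hm q hxq hyq
  rw [← this]
  exact ⟨hqP, hyq⟩

lemma x_ne_zero {x y : A} (hm : maximalIdeal A = Ideal.span {x, y})
    (hdim : ringKrullDim A = 2) : x ≠ 0 := by
  intro h
  rw [h] at hm
  have hm' : maximalIdeal A = Ideal.span {y} := by
    rw [hm, Ideal.span_insert]; simp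
  refine height_two hdim (Ideal.height_le_one_of_isPrincipal_of_mem_minimalPrimes
    (Ideal.span {y}) _ ?_)
  rw [← hm']
  exact ⟨⟨(maximalIdeal.isMaximal A).isPrime, le_rfl⟩, fun q hq _ => hq.2⟩

lemma prime_x {x y : A} (hm : maximalIdeal A = Ideal.span {x, y})
    (hdim : ringKrullDim A = 2) : Prime x :=
  (Ideal.span_singleton_prime (x_ne_zero hm hdim)).1 (exists_prime hm hdim).1

lemma not_dvd {x y : A} (hm : maximalIdeal A = Ideal.span {x, y})
    (hdim : ringKrullDim A = 2) : ¬ x ∣ y := fun h =>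
  (exists_prime hm hdim).2 (Ideal.mem_span_singleton.2 h)

lemma swap {x y : A} (hm : maximalIdeal A = Ideal.span {x, y}) :
    maximalIdeal A = Ideal.span {y, x} := by rw [hm, Set.pair_comm]

/-- `A/(x)` is a principal ideal domain. -/
lemma quot_pid {x y : A} (hm : maximalIdeal A = Ideal.span {x, y})
    (hdim : ringKrullDim A = 2) :
    IsDomain (A ⧸ Ideal.span {x}) ∧ IsPrincipalIdealRing (A ⧸ Ideal.span {x}) := by
  have hP := (exists_prime hm hdim).1
  have hD : IsDomain (A ⧸ Ideal.span {x}) := Ideal.Quotient.isDomain _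
  have hL : IsLocalRing (A ⧸ Ideal.span {x}) :=
    IsLocalRing.of_surjective' (Ideal.Quotient.mk _) Ideal.Quotient.mk_surjective
  refine ⟨hD, ?_⟩
  refine ((tfae_of_isNoetherianRing_of_isLocalRing_of_isDomain (R := A ⧸ Ideal.span {x})).out
    0 4).2 ?_
  have hloc : IsLocalHom (Ideal.Quotient.mk (Ideal.span {x})) :=
    IsLocalHom.of_surjective _ Ideal.Quotient.mk_surjective
  have h1 : maximalIdeal (A ⧸ Ideal.span {x}) =
      (maximalIdeal A).map (Ideal.Quotient.mk (Ideal.span {x})) := by
    refine le_antisymm ?_ ?_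
    · intro z hz
      obtain ⟨z, rfl⟩ := Ideal.Quotient.mk_surjective z
      refine Ideal.mem_map_of_mem _ ?_
      rw [mem_maximalIdeal, mem_nonunits_iff] at hz ⊢
      exact fun hu => hz (hu.map _)
    · rw [Ideal.map_le_iff_le_comap]
      intro z hz
      rw [Ideal.mem_comap, mem_maximalIdeal, mem_nonunits_iff]
      intro hu
      exact (mem_maximalIdeal z).1 hz (isUnit_of_map_unit _ _ hu)
  rw [h1, hm, Ideal.map_span, Set.image_pair]
  have h2 : Ideal.Quotient.mk (Ideal.span {x}) x = 0 :=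
    Ideal.Quotient.eq_zero_iff_mem.2 (Ideal.mem_span_singleton_self x)
  rw [h2, Ideal.span_insert]
  refine ⟨Ideal.Quotient.mk _ y, ?_⟩
  rw [Ideal.span_singleton_zero, bot_sup_eq]

/-- every non-maximal prime is principal -/
lemma principal {x y : A} (hm : maximalIdeal A = Ideal.span {x, y})
    (hdim : ringKrullDim A = 2) (q : Ideal A) [hq : q.IsPrime] (hne : q ≠ maximalIdeal A) :
    ∃ f, q = Ideal.span {f} := by
  have hqm := IsLocalRing.le_maximalIdeal hq.ne_top
  by_cases hx : x ∈ q
  · refine ⟨x, prime_eq_span hm q hx fun hy => hne ?_⟩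
    refine le_antisymm hqm ?_
    rw [hm, Ideal.span_le]; rintro z hz
    rcases hz with rfl | rfl
    · exact hx
    · exact hy
  · obtain ⟨hD, hpid⟩ := quot_pid hm hdim
    obtain ⟨f', hf'⟩ := hpid.principal (q.map (Ideal.Quotient.mk (Ideal.span {x})))
    have hf'mem : f' ∈ q.map (Ideal.Quotient.mk (Ideal.span {x})) := by
      rw [hf']; exact Submodule.mem_span_singleton_self f'
    obtain ⟨f, hf, rfl⟩ := (Ideal.mem_map_iff_of_surjective _ Ideal.Quotient.mk_surjective).1 hf'mem
    refine ⟨f, le_antisymm ?_ ((Ideal.span_singleton_le_iff_mem _).2 hf)⟩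
    refine Submodule.le_of_le_smul_of_le_jacobson_bot (I := maximalIdeal A)
      (IsNoetherian.noetherian q) jac ?_
    intro z hz
    have h1 : Ideal.Quotient.mk (Ideal.span {x}) z ∈ q.map (Ideal.Quotient.mk (Ideal.span {x})) :=
      Ideal.mem_map_of_mem _ hz
    rw [hf'] at h1
    obtain ⟨a', ha'⟩ := Submodule.mem_span_singleton.1 h1
    obtain ⟨a, rfl⟩ := Ideal.Quotient.mk_surjective a'
    rw [smul_eq_mul, ← map_mul, Ideal.Quotient.eq, Ideal.mem_span_singleton] at ha'
    obtain ⟨b, hb⟩ := ha'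
    have hbq : b ∈ q := by
      have : x * b ∈ q := by
        rw [← hb]; exact q.sub_mem (q.mul_mem_left _ hf) hz
      exact (hq.mem_or_mem this).resolve_left hx
    have : z = a * f + x * (-b) := by
      have : a * f - z = x * b := hb
      linear_combination this * (-1 : A)
    rw [this]
    refine Submodule.add_mem_sup (Ideal.mem_span_singleton'.2 ⟨a, rfl⟩) ?_
    refine Submodule.smul_mem_smul ?_ (q.neg_mem hbq)
    rw [hm]; exact Ideal.subset_span (by simp)

lemma ufd [IsDomain A] {x y : A} (hm : maximalIdeal A = Ideal.span {x, y})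
    (hdim : ringKrullDim A = 2) : UniqueFactorizationMonoid A := by
  rw [UniqueFactorizationMonoid.iff_exists_prime_mem_of_isPrime]
  intro q hq0 hq
  by_cases hne : q = maximalIdeal A
  · exact ⟨x, by rw [hne, hm]; exact Ideal.subset_span (by simp), prime_x hm hdim⟩
  · obtain ⟨f, hf⟩ := principal hm hdim q hne
    have hf0 : f ≠ 0 := by rintro rfl; exact hq0 (by rw [hf]; simp)
    refine ⟨f, by rw [hf]; exact Ideal.mem_span_singleton_self f, ?_⟩
    rw [← Ideal.span_singleton_prime hf0, ← hf]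
    exact hq

lemma hD2 [IsDomain A] {x y : A} (hm : maximalIdeal A = Ideal.span {x, y})
    (hdim : ringKrullDim A = 2) (f c : A) (hf : Prime f) (hc : ¬ f ∣ c) :
    ∃ s : ℕ, (maximalIdeal A) ^ s ≤ Ideal.span {c, f} := by
  refine Ideal.exists_pow_le_of_le_radical_of_fg ?_ (IsNoetherian.noetherian _)
  rw [Ideal.radical_eq_sInf]
  refine le_sInf ?_
  rintro q ⟨hq1, hq⟩
  have hq' : q.IsPrime := hq
  by_contra hcon
  have hne : q ≠ maximalIdeal A := fun h => hcon h.ge
  obtain ⟨g, hg⟩ := principal hm hdim q hne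
  have hfq : f ∈ q := hq1 (Ideal.subset_span (by simp))
  have hcq : c ∈ q := hq1 (Ideal.subset_span (by simp))
  rw [hg, Ideal.mem_span_singleton] at hfq hcq
  obtain ⟨d, hd⟩ := hfq
  rcases hf.dvd_or_dvd (⟨1, by rw [← hd, mul_one]⟩ : f ∣ g * d) with h | h
  · exact hc (h.trans hcq)
  · obtain ⟨t, ht⟩ := h
    have h3 : f * (g * t) = f * 1 := by
      rw [mul_one]; conv_rhs => rw [hd, ht]
      ring
    have h4 := mul_left_cancel₀ hf.ne_zero h3
    exact hq'.ne_top (by rw [hg, Ideal.span_singleton_eq_top]; exact IsUnit.of_mul_eq_one _ h4)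

end H907F
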