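import Pool.Agent.H907F.Gen

/-! The splitting prime of a local factorial domain with a nonzero `p^{-1}`-linear map. -/

set_option linter.unusedSectionVars false

namespace H907F

open IsLocalRing

variable {R : Type*} [CommRing R] [IsDomain R] [UniqueFactorizationMonoid R] [IsLocalRing R]
  [IsNoetherianRing R]

lemma codim_one_prime (p : ℕ) (hp : 2 ≤ p) (φ : R →+ R)
    (hφ : ∀ r z : R, φ (r ^ p * z) = r * φ z) (hφ0 : φ ≠ 0) (c : R) (hc : c ≠ 0) :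
    ∃ e₀ : ℕ, ∀ e : ℕ, e₀ ≤ e → ∀ P : Ideal R, P.IsPrime → P.height ≤ 1 →
      ∃ ψ : R →+ R, (∀ r x : R, ψ (r ^ (p ^ e) * x) = r * ψ x) ∧ ψ c ∉ P := by
  obtain ⟨e0, h⟩ := codim_one p hp φ hφ hφ0 c hc
  refine ⟨e0, fun e he P hP hht => ?_⟩
  by_cases hbot : P = ⊥
  · obtain ⟨ψ, hψ, hψc⟩ := h e he 0 not_isUnit_zero (Or.inl rfl)
    refine ⟨ψ, hψ, ?_⟩
    rw [hbot, Ideal.mem_bot]
    exact fun h0 => hψc (by rw [h0])
  · obtain ⟨f, hfP, hf⟩ := hP.exists_mem_prime_of_ne_bot hbot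
    have hspan : P = Ideal.span {f} := by
      have hfprime : (Ideal.span {f}).IsPrime := (Ideal.span_singleton_prime hf.ne_zero).2 hf
      have hle : Ideal.span {f} ≤ P := (Ideal.span_singleton_le_iff_mem _).2 hfP
      by_contra hne
      have hlt : Ideal.span {f} < P := lt_of_le_of_ne hle (Ne.symm hne)
      have hht' : P.height ≤ ((1 : ℕ) : ℕ∞) := by simpa using hht
      rw [Ideal.height_le_iff] at hht'
      have h1 := hht' _ hfprime hlt
      have h0 : (Ideal.span {f}).height = 0 := by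
        have : (Ideal.span {f}).height < 1 := by simpa using h1
        exact Order.lt_one_iff.1 this
      rw [Ideal.height_eq_zero_iff_eq_bot, Ideal.span_singleton_eq_bot] at h0
      exact hf.ne_zero h0
    obtain ⟨ψ, hψ, hψc⟩ := h e he f hf.not_isUnit (Or.inr hf)
    refine ⟨ψ, hψ, ?_⟩
    rw [hspan, Ideal.mem_span_singleton]
    exact hψc

/-- all elements which are never sent to a unit -/
def QI (R : Type*) [CommRing R] [IsLocalRing R] (p : ℕ) : Ideal R where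
  carrier := {c | ∀ e : ℕ, 1 ≤ e → ∀ ψ : R →+ R, (∀ r x : R, ψ (r ^ (p ^ e) * x) = r * ψ x) →
    ¬ IsUnit (ψ c)}
  zero_mem' := fun e _ ψ _ => by rw [map_zero]; exact not_isUnit_zero
  add_mem' := fun {a b} ha hb e he ψ hψ => by
    rw [map_add]
    exact nonunits_add (ha e he ψ hψ) (hb e he ψ hψ)
  smul_mem' := fun c a ha e he ψ hψ => by
    have := ha e he (ψ.comp (AddMonoidHom.mulLeft c)) (fun r x => by
      simp only [AddMonoidHom.comp_apply, AddMonoidHom.coe_mulLeft]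
      rw [← hψ]; congr 1; ring)
    simpa using this

lemma mem_QI (p : ℕ) (c : R) : c ∈ QI R p ↔ ∀ e : ℕ, 1 ≤ e → ∀ ψ : R →+ R,
    (∀ r x : R, ψ (r ^ (p ^ e) * x) = r * ψ x) → ¬ IsUnit (ψ c) := Iff.rfl

lemma QI_compat (p e : ℕ) (ψ : R →+ R) (hψ : ∀ r x : R, ψ (r ^ (p ^ e) * x) = r * ψ x) (c : R)
    (hc : c ∈ QI R p) : ψ c ∈ QI R p := by
  intro e' he' ψ' hψ'
  refine hc (e + e') (by omega) (ψ'.comp ψ) (fun r x => ?_)
  simp only [AddMonoidHom.comp_apply]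
  have : r ^ p ^ (e + e') = (r ^ p ^ e') ^ p ^ e := by rw [← pow_mul, ← pow_add, add_comm]
  rw [this, hψ, hψ']

lemma QI_prime (p : ℕ) (hp : 2 ≤ p) (htop : QI R p ≠ ⊤) : (QI R p).IsPrime := by
  refine ⟨htop, fun {a b} hab => ?_⟩
  by_contra hcon
  push Not at hcon
  obtain ⟨ha, hb⟩ := hcon
  rw [mem_QI] at ha hb
  push Not at ha hb
  obtain ⟨e, he, ψa, hψa, ua⟩ := ha
  obtain ⟨e', he', ψb, hψb, ⟨v, hv⟩⟩ := hb
  have hq : 1 ≤ p ^ e' := Nat.one_le_pow _ _ (by omega)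
  refine hab (e + e') (by omega) (ψa.comp ((AddMonoidHom.mulLeft (↑v⁻¹ : R)).comp
    (ψb.comp (AddMonoidHom.mulLeft (a ^ (p ^ e' - 1)))))) (fun r x => ?_) ?_
  · simp only [AddMonoidHom.comp_apply, AddMonoidHom.coe_mulLeft]
    have h1 : a ^ (p ^ e' - 1) * (r ^ p ^ (e + e') * x) =
        (r ^ p ^ e) ^ p ^ e' * (a ^ (p ^ e' - 1) * x) := by
      rw [← pow_mul, ← pow_add]; ring
    have h2 : ∀ t : R, (↑v⁻¹ : R) * (r ^ p ^ e * t) = r ^ p ^ e * ((↑v⁻¹ : R) * t) := fun t => by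
      ring
    rw [h1, hψb, h2, hψa]
  · simp only [AddMonoidHom.comp_apply, AddMonoidHom.coe_mulLeft]
    have h1 : a ^ (p ^ e' - 1) * (a * b) = a ^ p ^ e' * b := by
      rw [← mul_assoc, ← pow_succ, Nat.sub_add_cancel hq]
    rw [h1, hψb, ← hv]
    have h2 : (↑v⁻¹ : R) * (a * ↑v) = a := by
      rw [mul_comm a, ← mul_assoc, Units.inv_mul, one_mul]
    rw [h2]
    exact ua

theorem splitting_prime (p : ℕ) (hp : 2 ≤ p) (φ : R →+ R)
    (hφ : ∀ r z : R, φ (r ^ p * z) = r * φ z) (hφ0 : φ ≠ 0) :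
    QI R p = ⊤ ∨ QI R p = ⊥ ∨ ((QI R p).IsPrime ∧ 2 ≤ (QI R p).height) := by
  by_cases htop : QI R p = ⊤
  · exact Or.inl htop
  by_cases hbot : QI R p = ⊥
  · exact Or.inr (Or.inl hbot)
  refine Or.inr (Or.inr ⟨QI_prime p hp htop, ?_⟩)
  by_contra hht
  push Not at hht
  have hht' : (QI R p).height ≤ 1 := Order.le_of_lt_add_one (by simpa [one_add_one_eq_two] using hht)
  obtain ⟨c, hcQ, hc⟩ := (Submodule.ne_bot_iff _).1 hbot
  obtain ⟨e0, h⟩ := codim_one_prime p hp φ hφ hφ0 c hc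
  obtain ⟨ψ, hψ, hψc⟩ := h e0 le_rfl (QI R p) (QI_prime p hp htop) hht'
  exact hψc (QI_compat p e0 ψ hψ c hcQ)

end H907F
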